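import Pool.Agent.Helper29.AG7.RegOf
import Pool.Agent.AG.Reg.Kids

/-!
# AG section 7: torsos `tor p`, the pairs `X0`, ear ends `pe`

`tor p` = `A_p` without the sets `A_q` of the consecutive pairs `q` in `A_p` (trivial pairs included);
`X0` = consecutive pairs of the region whose torso contains no eared triangle.
-/

set_option autoImplicit false
set_option linter.unusedSectionVars false
open Finset

namespace Pool.Agent.Helper29.AG7

open AG AG.Obj

variable {I : Type} [DecidableEq I] {S : Obj I} {pt : Sd I → Pt} {X : Finset I}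

/-! ### torsos -/

open Classical in
/-- `K` without the sets of the consecutive pairs in `K` -/
noncomputable def torC (S : Obj I) (pt : Sd I → Pt) (K : Finset I) (W : Sd I → Prop) : Finset I :=
  K.filter (fun t => ∀ q ∈ S.CP pt K W, t ∉ S.pA pt q.1 q.2)

theorem mem_torC {K : Finset I} {W : Sd I → Prop} {t : I} :
    t ∈ torC S pt K W ↔ t ∈ K ∧ ∀ q ∈ S.CP pt K W, t ∉ S.pA pt q.1 q.2 := by
  classical
  rw [torC, mem_filter]

/-- torso of the pair `p` -/
noncomputable def tor (S : Obj I) (pt : Sd I → Pt) (p : Sd I × Sd I) : Finset I :=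
  torC S pt (S.pA pt p.1 p.2) (S.Eqv p.1)

theorem tor_sub {p : Sd I × Sd I} : tor S pt p ⊆ S.pA pt p.1 p.2 := fun _ ht => (mem_torC.1 ht).1

open Classical in
/-- consecutive pairs whose torso contains no eared triangle -/
noncomputable def X0 (S : Obj I) (pt : Sd I → Pt) (R : Finset I) (V : Sd I → Prop) :
    Finset (Sd I × Sd I) := (S.CP pt R V).filter (fun p => ∀ c, S.Eared c → c.1 ∉ tor S pt p)

theorem mem_X0 {R : Finset I} {V : Sd I → Prop} {p : Sd I × Sd I} :
    p ∈ X0 S pt R V ↔ p ∈ S.CP pt R V ∧ ∀ c, S.Eared c → c.1 ∉ tor S pt p := by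
  classical
  rw [X0, mem_filter]

section env

variable {R : Finset I} {V : Sd I → Prop}

theorem mem_tor (hE : Env S pt R V) {p : Sd I × Sd I} (hp : p ∈ S.CP pt R V) {t : I} :
    t ∈ tor S pt p ↔ t ∈ S.pA pt p.1 p.2 ∧
      ∀ q ∈ S.CP pt R V, S.pA pt q.1 q.2 ⊂ S.pA pt p.1 p.2 → t ∉ S.pA pt q.1 q.2 := by
  rw [tor, mem_torC]
  constructor
  · rintro ⟨h1, h2⟩
    exact ⟨h1, fun q hq hs => h2 q ((hE.mem_CP_pA hp).2 ⟨hq, hs⟩)⟩
  · rintro ⟨h1, h2⟩
    refine ⟨h1, fun q hq => ?_⟩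
    have := (hE.mem_CP_pA hp).1 hq
    exact h2 q this.1 this.2

theorem tor_disj (hE : Env S pt R V) {p q : Sd I × Sd I} (hp : p ∈ S.CP pt R V)
    (hq : q ∈ S.CP pt R V) (hne : p ≠ q) : Disjoint (tor S pt p) (tor S pt q) := by
  rw [disjoint_left]
  intro t h1 h2
  rw [mem_tor hE hp] at h1
  rw [mem_tor hE hq] at h2
  rcases hE.lam hp hq hne with h | h | h
  · exact disjoint_left.1 h h1.1 h2.1
  · exact h2.2 p hp h h1.1
  · exact h1.2 q hq h h2.1

theorem exists_tor (hE : Env S pt R V) {t : I} (h : ∃ p ∈ S.CP pt R V, t ∈ S.pA pt p.1 p.2) :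
    ∃ p ∈ S.CP pt R V, t ∈ tor S pt p := by
  classical
  obtain ⟨p0, hp0, ht0⟩ := h
  obtain ⟨p, hp, hmin⟩ := ((S.CP pt R V).filter (fun p => t ∈ S.pA pt p.1 p.2)).exists_min_image
    (fun p => (S.pA pt p.1 p.2).card) ⟨p0, mem_filter.2 ⟨hp0, ht0⟩⟩
  rw [mem_filter] at hp
  refine ⟨p, hp.1, (mem_tor hE hp.1).2 ⟨hp.2, fun q hq hs ht => ?_⟩⟩
  have := hmin q (mem_filter.2 ⟨hq, ht⟩)
  have := card_lt_card hs
  omega

/-- an eared triangle of the region lies in the set of a pair -/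
theorem eared_in (hE : Env S pt R V) {c : Sd I} (hc : S.Eared c) (h : c.1 ∈ R) :
    ∃ p ∈ S.CP pt R V, c.1 ∈ tor S pt p := by
  classical
  apply exists_tor hE
  by_contra hcon
  push Not at hcon
  have h1 := hE.adm_R.torso hE
  have h2 : c ∈ S.earsT R (S.kids pt R V) (fun q => S.pA pt q.1 q.2) := by
    rw [earsT, mem_filter]
    exact ⟨mem_EarsK.2 ⟨hc, h⟩, fun q hq => hcon q (kids_sub hq)⟩
  have h3 := card_pos.2 ⟨c, h2⟩
  omega

/-- at most one eared triangle in a torso -/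
theorem eared_unique (hE : Env S pt R V) {p : Sd I × Sd I} (hp : p ∈ S.CP pt R V) {c c' : Sd I}
    (hc : S.Eared c) (h : c.1 ∈ tor S pt p) (hc' : S.Eared c') (h' : c'.1 ∈ tor S pt p) :
    c' = c := by
  classical
  have h1 := (hE.adm_pA hp).torso hE
  have key : ∀ d, S.Eared d → d.1 ∈ tor S pt p →
      d ∈ S.earsT (S.pA pt p.1 p.2) (S.kids pt (S.pA pt p.1 p.2) (S.Eqv p.1))
        (fun q => S.pA pt q.1 q.2) := by
    intro d hd hdt
    rw [tor, mem_torC] at hdt
    rw [earsT, mem_filter]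
    exact ⟨mem_EarsK.2 ⟨hd, hdt.1⟩, fun q hq => hdt.2 q (kids_sub hq)⟩
  have h2 : (S.earsT (S.pA pt p.1 p.2) (S.kids pt (S.pA pt p.1 p.2) (S.Eqv p.1))
      (fun q => S.pA pt q.1 q.2)).card ≤ 1 := by omega
  rw [card_le_one] at h2
  exact h2 c' (key c' hc' h') c (key c hc h)

end env

/-! ### the ear end of an ear cost -/

open Classical in
/-- ear end of the cost `x = (e, d)` : the end of `d` which is not the apex of `e` -/
noncomputable def pe (S : Obj I) (X : Finset I) (x : I × Finset (Sd I)) : Sd I :=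
  if h : ∃ c : Sd I, S.Eared c ∧ c.1 = x.1 then
    (if x.2 = dg S h.choose then (S.keep X).last (rot h.choose)
      else (S.keep X).last (unrot h.choose))
  else (x.1, 0)

theorem eared_uniq {c c' : Sd I} (h : S.Eared c) (h' : S.Eared c') (e : c.1 = c'.1) : c = c' :=
  corner_unique h.1 h.2.1 (eared_not_glued h') e

theorem dg_ne_unrot {c : Sd I} (h : S.Eared c) : dg S (unrot c) ≠ dg S c := by
  intro e
  rcases dg_eq_iff.1 e with h1 | h1
  · exact unrot_ne c h1.symm
  · have h2 : (S.g (unrot c)).1 = c.1 := by rw [← h1]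
    exact S.ne (unrot c) h.2.1 (by rw [h2]; rfl)

theorem pe_rot {c : Sd I} (h : S.Eared c) : pe S X (c.1, dg S c) = (S.keep X).last (rot c) := by
  classical
  have hex : ∃ c' : Sd I, S.Eared c' ∧ c'.1 = c.1 := ⟨c, h, rfl⟩
  have h1 := hex.choose_spec
  have h2 : hex.choose = c := eared_uniq h1.1 h h1.2
  unfold pe
  rw [dif_pos hex]
  simp only [h2, if_true]

theorem pe_unrot {c : Sd I} (h : S.Eared c) :
    pe S X (c.1, dg S (unrot c)) = (S.keep X).last (unrot c) := by
  classical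
  have hex : ∃ c' : Sd I, S.Eared c' ∧ c'.1 = c.1 := ⟨c, h, rfl⟩
  have h1 := hex.choose_spec
  have h2 : hex.choose = c := eared_uniq h1.1 h h1.2
  unfold pe
  rw [dif_pos hex]
  simp only [h2]
  rw [if_neg (dg_ne_unrot h)]

end Pool.Agent.Helper29.AG7
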