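import Pool.Agent.Helper29.AG7.BillB
import Pool.Agent.Helper29.AG7.Tor

/-!
# AG section 7: torsos, the bills (b)

`tor p` = `A_p` without the sets `A_q` of the consecutive pairs `q` in `A_p` (trivial pairs included);
`X0` = consecutive pairs of the region whose torso contains no eared triangle.
-/

set_option autoImplicit false
set_option linter.unusedSectionVars false
open Finset

namespace Pool.Agent.Helper29.AG7

open AG AG.Obj

variable {I : Type} [DecidableEq I] {S : Obj I} {pt : Sd I → Pt} {X : Finset I}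

/-! ### crossing the boundary of `A_p` away from its visit -/

/-- leaving `A_p` at another visit -/
theorem cross_pA (hB : Base S pt) (hG : S.Geo pt) {w w' x y : Sd I} (h : S.Pr pt w w')
    (hz : ¬ S.Eqv w x) (hnb : Nb S x y) (hx : x.1 ∈ S.pA pt w w') (hy : y.1 ∉ S.pA pt w w') :
    D1 S x y ∨ D2 S pt x y ∨ D2 S pt y x := by
  have hA := hB.isIn_pA h
  have hbd := hA.bd
  rcases hnb with hs | hs
  · -- clockwise: `x` is the partner of `lo w'`
    have h1 : x ∈ S.bd (S.pA pt w w') := by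
      rw [mem_bd]
      refine ⟨hs.1, hx, ?_⟩
      have := hy
      rw [hs.2, rot_fst] at this
      exact this
    rw [hbd, mem_insert, mem_singleton] at h1
    rcases h1 with h1 | h1
    · exfalso
      apply hz
      rw [h1]
      exact h.b.eqv_hi
    · have hy' : y = rot (S.lo pt w') := by rw [hs.2, h1, S.invol]
      rcases h.b' with hb | hb | hb
      · -- real
        have e : S.lo pt w' = w' := lo_of_not_B hb.not_B
        rw [e] at h1 hy'
        left
        rw [h1, hy']
        exact D1_rot hb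
      · have e : S.lo pt w' = w' := lo_of_not_B hb.not_B
        rw [e] at h1 hy'
        right; left
        rw [h1, hy']
        exact D2_virtA hG hb h.b'.glued
      · have e : S.lo pt w' = S.ccw w' := lo_of_B hb
        have hg := h.b'.glued'
        rw [e] at h1 hy'
        rw [g_ccw hg] at h1
        have hy2 : y = S.cw (unrot w') := by
          rw [hy', ccw_of_glued hg, cw_of_glued hg]
        right; right
        rw [h1, hy2]
        exact D2_virtB hG hb hg
  · -- counterclockwise: `y` is the partner of `hi w`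
    have hxs : x = rot (S.g y) := hs.2
    have hgy : S.g (S.g y) ≠ S.g y := g_ne_iff.2 hs.1
    have h1 : S.g y ∈ S.bd (S.pA pt w w') := by
      rw [mem_bd]
      refine ⟨hgy, ?_, by rw [S.invol]; exact hy⟩
      have := hx
      rw [hxs, rot_fst] at this
      exact this
    rw [hbd, mem_insert, mem_singleton] at h1
    rcases h1 with h1 | h1
    · have hyy : y = S.g (S.hi pt w) := by rw [← h1, S.invol]
      have hxx : x = rot (S.hi pt w) := by rw [hxs, h1]
      rcases h.b with hb | hb | hb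
      · have e : S.hi pt w = S.ccw w := hi_of_not_A hb.not_A
        have hg := h.b.glued'
        rw [e] at hyy hxx
        rw [g_ccw hg] at hyy
        have hx2 : x = S.cw (unrot w) := by rw [hxx, ccw_of_glued hg, cw_of_glued hg]
        left
        rw [hyy, hx2]
        exact D1_unrot hb
      · have e : S.hi pt w = w := hi_of_A hb
        rw [e] at hyy hxx
        right; right
        rw [hyy, hxx]
        exact D2_virtA hG hb h.b.glued
      · have e : S.hi pt w = S.ccw w := hi_of_not_A hb.not_A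
        have hg := h.b.glued'
        rw [e] at hyy hxx
        rw [g_ccw hg] at hyy
        have hx2 : x = S.cw (unrot w) := by rw [hxx, ccw_of_glued hg, cw_of_glued hg]
        right; left
        rw [hyy, hx2]
        exact D2_virtB hG hb hg
    · exfalso
      have h2 : y = S.lo pt w' := S.g_injective h1
      apply hz
      have h3 : S.Eqv y x := (Relation.EqvGen.rel _ _ hs : S.Eqv y x)
      rw [h2] at h3
      exact (h.eqv.trans h.b'.eqv_lo).trans h3

section env

variable {R : Finset I} {V : Sd I → Prop}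

/-- crossing of the boundary of a torso at a visit without blades -/
theorem cross_tor (hE : Env S pt R V) (hG : S.Geo pt) {p : Sd I × Sd I} (hp : p ∈ S.CP pt R V)
    {z : Sd I} (hz : ∀ w, S.BladeAt pt w → ¬ S.Eqv z w) {x y : Sd I} (hx : S.Eqv z x)
    (hnb : Nb S x y) (h1 : x.1 ∈ tor S pt p) (h2 : y.1 ∉ tor S pt p) :
    D1 S x y ∨ D2 S pt x y ∨ D1 S y x ∨ D2 S pt y x := by
  have hB := hE.base
  have cp := (mem_CP.1 hp).1
  rw [mem_tor hE hp] at h1 h2
  by_cases hy : y.1 ∈ S.pA pt p.1 p.2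
  · -- entering the set of a smaller pair
    push Not at h2
    obtain ⟨q, hq, hs, hyq⟩ := h2 hy
    have cq := (mem_CP.1 hq).1
    have h3 : ¬ S.Eqv q.1 y := fun h => hz q.1 cq.toPr.b ((hx.trans hnb.eqv).trans h.symm)
    rcases cross_pA hB hG cq.toPr h3 hnb.symm hyq (h1.2 q hq hs) with h | h | h
    · exact Or.inr (Or.inr (Or.inl h))
    · exact Or.inr (Or.inr (Or.inr h))
    · exact Or.inr (Or.inl h)
  · have h3 : ¬ S.Eqv p.1 x := fun h => hz p.1 cp.toPr.b (hx.trans h.symm)
    rcases cross_pA hB hG cp.toPr h3 hnb h1.1 hy with h | h | h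
    · exact Or.inl h
    · exact Or.inr (Or.inl h)
    · exact Or.inr (Or.inr (Or.inr h))

end env

/-! ### the ear end of an ear cost -/

theorem mem_Ecost (H : RHyp S pt X) {x : I × Finset (Sd I)} : x ∈ H.reg.Ecost ↔
    x.1 ∈ X ∧ ∃ c, S.Eared c ∧ c.1 = x.1 ∧ (x.2 = dg S c ∨ x.2 = dg S (unrot c)) ∧
      (bl S X (S.Blk pt) x.2 = none ∨ H.reg.Hosts x.1) := by
  classical
  rw [Helper41.AG7.Reg.Ecost, mem_filter, mem_product]
  constructor
  · rintro ⟨⟨h1, _⟩, h3, h4⟩
    obtain ⟨hX, c, hc1, hc2⟩ := mem_eareds.1 (show x.1 ∈ eareds S X from h1)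
    refine ⟨hX, c, hc2, hc1, ?_, h4⟩
    have h5 : x.2 ∈ inc S c.1 := by rw [hc1]; exact h3
    rw [inc_two hc2.1 hc2.2.1 (eared_not_glued hc2), mem_insert, mem_singleton] at h5
    exact h5
  · rintro ⟨h1, c, hc, hc1, h2, h3⟩
    have h5 : x.2 ∈ inc S x.1 := by
      rw [← hc1, inc_two hc.1 hc.2.1 (eared_not_glued hc), mem_insert, mem_singleton]
      exact h2
    exact ⟨⟨mem_eareds.2 ⟨h1, c, hc1, hc⟩, inc_sub h1 h5⟩, h5, h3⟩

/-- the diagonal of an ear cost is not blocked at the ear end -/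
theorem not_blk_of_cost (H : RHyp S pt X) {c : Sd I} (hc : S.Eared c) (h : H.reg.Hosts c.1) :
    S.Blk pt c ∧ S.Blk pt (S.g (unrot c)) := by
  classical
  obtain ⟨w, hwV, hw2, hws⟩ := h
  have hA2 : (Aw S X (S.Blk pt) w).card = 2 := hw2
  have hsub : Aw S X (S.Blk pt) w ⊆ inc S c.1 := hws
  obtain ⟨b, hb1, hb2, hb3, hb4, hb5⟩ := host H.lin (fun a ha => ha.1) H.b1 H.g1 hA2
  have h2 : dg S b ∈ inc S c.1 := hsub (by rw [hb2]; exact mem_insert_self _ _)
  have h3 : dg S (unrot b) ∈ inc S c.1 :=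
    hsub (by rw [hb2]; exact mem_insert_of_mem (mem_singleton_self _))
  have h4 : b.1 = c.1 := by
    by_contra hne
    have e1 : c.1 = (S.g b).1 := by
      rcases (dg_mem_inc_iff hb3.1).1 h2 with h5 | h5
      · exact absurd h5.symm hne
      · exact h5
    have e2 : c.1 = (S.g (unrot b)).1 := by
      rcases (dg_mem_inc_iff hb5).1 h3 with h5 | h5
      · exact absurd h5.symm hne
      · exact h5
    exact H.sh b (unrot b) rfl (unrot_ne b).symm hb3.1 hb5 (e1.symm.trans e2)
  have h5 : b = c := corner_unique hb3.1 hb5 (eared_not_glued hc) h4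
  rw [← h5]
  exact ⟨hb3, hb4⟩

theorem pe_end (H : RHyp S pt X) {x : I × Finset (Sd I)} (hx : x ∈ H.reg.Ecost) :
    ∃ c z, S.Eared c ∧ c.1 = x.1 ∧ (z = rot c ∨ z = unrot c) ∧ pe S X x = (S.keep X).last z ∧
      ((z = rot c ∧ x.2 = dg S c) ∨ (z = unrot c ∧ x.2 = dg S (unrot c))) := by
  obtain ⟨_, c, hc, hc1, h2, _⟩ := (mem_Ecost H).1 hx
  obtain ⟨t, d⟩ := x
  simp only at hc1 h2
  subst hc1
  rcases h2 with rfl | rfl
  · exact ⟨c, rot c, hc, rfl, Or.inl rfl, pe_rot hc, Or.inl ⟨rfl, rfl⟩⟩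
  · exact ⟨c, unrot c, hc, rfl, Or.inr rfl, pe_unrot hc, Or.inr ⟨rfl, rfl⟩⟩

theorem last_eqv' (S : Obj I) (X : Finset I) (z : Sd I) : S.Eqv z ((S.keep X).last z) :=
  (last_eqv (S.keep X) z).mono (keep_le S X)

/-- no blade at the ear end -/
theorem pe_noB (hB : Base S pt) (H : RHyp S pt X) {x : I × Finset (Sd I)}
    (hx : x ∈ H.reg.Ecost) {w : Sd I} (hw : S.BladeAt pt w) : ¬ S.Eqv w (pe S X x) := by
  obtain ⟨c, z, hc, _, hz, he, _⟩ := pe_end H hx
  rw [he]
  intro h
  exact hB.earEnd z w (earEnd_of c hc hz) hw ((last_eqv' S X z).trans h.symm)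

theorem pe_inj (hB : Base S pt) (H : RHyp S pt X) : ∀ x ∈ H.reg.Ecost, ∀ y ∈ H.reg.Ecost,
    pe S X x = pe S X y → x = y := by
  intro x hx y hy hxy
  obtain ⟨c, z, hc, hc1, hz, he, hd⟩ := pe_end H hx
  obtain ⟨c', z', hc', hc1', hz', he', hd'⟩ := pe_end H hy
  have h1 : S.Eqv z z' := by
    refine (last_eqv' S X z).trans ?_
    rw [← he, hxy, he']
    exact (last_eqv' S X z').symm
  have h2 : z = z' := ear_corner hB hc hc' hz hz' h1
  have h3 : c.1 = c'.1 := by
    have e1 : z.1 = c.1 := by rcases hz with h | h <;> rw [h] <;> rfl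
    have e2 : z'.1 = c'.1 := by rcases hz' with h | h <;> rw [h] <;> rfl
    rw [← e1, h2, e2]
  have h4 : c = c' := eared_uniq hc hc' h3
  subst h4
  apply Prod.ext
  · rw [← hc1, ← hc1']
  · rcases hd with ⟨a1, a2⟩ | ⟨a1, a2⟩ <;> rcases hd' with ⟨b1, b2⟩ | ⟨b1, b2⟩
    · rw [a2, b2]
    · exfalso
      have : rot c = unrot c := by rw [← a1, h2, b1]
      exact unrot_ne_rot c this.symm
    · exfalso
      have : unrot c = rot c := by rw [← a1, h2, b1]
      exact unrot_ne_rot c this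
    · rw [a2, b2]

/-- BILLS (b) -/
theorem bill_b {V : Sd I → Prop} (hE : Env S pt X V) (hG : S.Geo pt) (H : RHyp S pt X) :
    ∀ x ∈ H.reg.Ecost, pe S X x ∈ H.reg.zeros ∨ ∃ y ∈ H.reg.unused,
      H.reg.bl y.2 = some (pe S X x) ∧ ∀ p ∈ X0 S pt X V, y.1 ∉ tor S pt p := by
  intro x hx
  have hB := hE.base
  have hl := hB.lin
  obtain ⟨hX, c0, hc0, hc01, hd0, hcost⟩ := (mem_Ecost H).1 hx
  obtain ⟨c, z, hc, hc1, hz, he, hd⟩ := pe_end H hx
  have hcX : c.1 ∈ X := by rw [hc1]; exact hX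
  obtain ⟨p, hp, hpt⟩ := eared_in hE hc hcX
  have hsub : tor S pt p ⊆ X := fun t ht => hE.subA p hp (tor_sub ht)
  have hnob : ∀ w, S.BladeAt pt w → ¬ S.Eqv z w := fun w hw h =>
    hB.earEnd z w (earEnd_of c hc hz) hw h
  have hzF : z.1 ∈ S.F := by
    have : z.1 = c.1 := by rcases hz with h | h <;> rw [h] <;> rfl
    rw [this]; exact H.sub hcX
  -- no block at the ear end
  have hnb : (z = rot c ∧ ¬ S.Blk pt (S.g c)) ∨ (z = unrot c ∧ ¬ S.Blk pt (unrot c)) := by
    have hcost' : bl S X (S.Blk pt) x.2 = none ∨ H.reg.Hosts c.1 := by rw [hc1]; exact hcost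
    rcases hd with ⟨h1, h2⟩ | ⟨h1, h2⟩
    · left
      refine ⟨h1, ?_⟩
      rcases hcost' with h | h
      · rw [h2, bl_none] at h; exact h.2
      · exact H.b1 _ (not_blk_of_cost H hc h).1
    · right
      refine ⟨h1, ?_⟩
      rcases hcost' with h | h
      · rw [h2, bl_none] at h; exact h.1
      · intro hb
        have h3 := H.b1 _ hb
        exact h3 (not_blk_of_cost H hc h).2
  -- the walk
  obtain ⟨n, m, W, hn0, hk0⟩ : ∃ n m, Walk S n m ∧ n 0 = z ∧ (0 < m → ¬ Bk S pt (n 0) (n 1)) := by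
    rcases hnb with ⟨h1, h2⟩ | ⟨h1, h2⟩
    · have hu : S.g (rot c) = rot c := eared_not_glued hc
      obtain ⟨n, m, W, h0⟩ := exists_walk_bot hl (z := z) hzF (by rw [h1]; exact hu)
      refine ⟨n, m, W, h0, fun hm hbk => ?_⟩
      rcases hbk with ⟨h3, _⟩ | ⟨h3, h4⟩
      · rw [h0, h1] at h3; exact h3.1 hu
      · have h5 := (step_iff_ccw.1 h3).2
        rw [h0, h1, unrot_rot] at h5
        rw [h5] at h4
        exact h2 h4
    · have hu : S.g (unrot z) = unrot z := by
        rw [h1, unrot_unrot]; exact eared_not_glued hc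
      obtain ⟨n, m, W, h0⟩ := exists_walk_top hl (z := z) hu
      refine ⟨n, m, W, h0, fun hm hbk => ?_⟩
      rcases hbk with ⟨_, h4⟩ | ⟨h3, _⟩
      · rw [h0, h1] at h4; exact h2 h4
      · have h5 := (step_iff_ccw.1 h3).1
        rw [h0] at h5
        exact h5 hu
  have hmain := ear_slot H hB W hsub hc hpt (by rw [hn0]; exact hz)
    (fun x y hx hnb h1 h2 => cross_tor hE hG hp (by rw [← hn0] at hnob; exact hnob) hx hnb h1 h2)
    (fun c' hc' h' => eared_unique hE hp hc hpt hc' h') hk0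
  rw [he, ← hn0]
  rcases hmain with h | ⟨y, hy1, hy2, hy3⟩
  · exact Or.inl h
  · refine Or.inr ⟨y, hy1, hy3, fun q hq hyq => ?_⟩
    rw [mem_X0] at hq
    by_cases hpq : p = q
    · subst hpq
      exact hq.2 c hc hpt
    · exact disjoint_left.1 (tor_disj hE hp hq.1 hpq) hy2 hyq

end Pool.Agent.Helper29.AG7
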