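import Pool.Agent.Helper29.AG7.BillA
import Pool.Agent.Helper29.AG7.Tor
import Pool.Agent.Helper41.AG7.OpenBills

/-!
# AG section 7.3: the bills (a)
-/

set_option autoImplicit false
set_option linter.unusedSectionVars false
open Finset

namespace Pool.Agent.Helper29.AG7

open AG AG.Obj

variable {I : Type} [DecidableEq I] {S : Obj I} {pt : Sd I → Pt} {X : Finset I}

open Classical in
/-- the corners of `A_p` at the visit of the pair `p` -/
noncomputable def fanC (S : Obj I) (pt : Sd I → Pt) (p : Sd I × Sd I) : Finset (Sd I) :=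
  S.sides.filter (fun c => S.Eqv p.1 c ∧ c.1 ∈ S.pA pt p.1 p.2)

theorem mem_fanC {p : Sd I × Sd I} {c : Sd I} : c ∈ fanC S pt p ↔
    c.1 ∈ S.F ∧ S.Eqv p.1 c ∧ c.1 ∈ S.pA pt p.1 p.2 := by
  classical
  rw [fanC, mem_filter, mem_sides]

/-- the sector of `A_p` at the visit of `p` has angle at least `π` -/
def wide (S : Obj I) (pt : Sd I → Pt) (p : Sd I × Sd I) : Prop :=
  Real.pi ≤ ∑ c ∈ fanC S pt p, cang pt c

/-- the visit of the region of the sector of `A_p` -/
noncomputable def vp (S : Obj I) (pt : Sd I → Pt) (X : Finset I) (p : Sd I × Sd I) : Sd I :=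
  (S.keep X).last (S.cw (S.lo pt p.2))

/-- positions along a fan -/
theorem ps_iter (hl : S.Linear) {a : Sd I} : ∀ i, i ≤ S.ps a → S.ps (S.cw^[i] a) = S.ps a - i := by
  intro i
  induction i with
  | zero => intro _; rfl
  | succ i ih =>
    intro hi
    have h1 := ih (by omega)
    have h2 : S.g (S.cw^[i] a) ≠ S.cw^[i] a := (ps_pos_iff hl).1 (by omega)
    rw [Function.iterate_succ_apply']
    have h3 := ps_of_glued hl h2
    omega

theorem iter_eq (hl : S.Linear) {a b : Sd I} (h : S.Eqv a b) (hp : S.ps b ≤ S.ps a) :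
    S.cw^[S.ps a - S.ps b] a = b := by
  refine ps_inj hl ((cw_iter_eqv S _ a).symm.trans h) ?_
  rw [ps_iter hl _ (Nat.sub_le _ _)]
  omega

/-- a corner which is not an end of its fan and not the apex of a blade or of an eared triangle is in a face -/
theorem face_of (hB : Base S pt) (H : RHyp S pt X) {u : Sd I} (hu : u.1 ∈ X) (h1 : S.g u ≠ u)
    (h2 : S.g (unrot u) ≠ unrot u) (h3 : ¬ S.Blade u) (h4 : ¬ S.Eared u) : S.Face u.1 := by
  rcases H.three _ (H.sub hu) with h | ⟨c, hc, hb⟩ | ⟨c, hc, hb⟩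
  · exact h
  · exfalso
    have : u = c := corner_unique h1 h2 hb.2.2.1 hc.symm
    rw [← this] at hb
    exact h3 hb
  · exfalso
    have : u = c := corner_unique h1 h2 (eared_not_glued hb) hc.symm
    rw [← this] at hb
    exact h4 hb

section env

variable {V : Sd I → Prop} {p : Sd I × Sd I}

/-- number of corners of the sector -/
noncomputable def kp (S : Obj I) (pt : Sd I → Pt) (p : Sd I × Sd I) : ℕ :=
  S.ps (S.lo pt p.2) - S.ps (S.hi pt p.1)

theorem kp_pos (hB : Base S pt) (h : S.Pr pt p.1 p.2) : 1 ≤ kp S pt p := by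
  have := hB.int h
  unfold kp
  omega

theorem eqv_hl (h : S.Pr pt p.1 p.2) : S.Eqv (S.lo pt p.2) (S.hi pt p.1) :=
  (h.b'.eqv_lo.symm.trans h.eqv.symm).trans h.b.eqv_hi

theorem iter_kp (hB : Base S pt) (h : S.Pr pt p.1 p.2) :
    S.cw^[kp S pt p] (S.lo pt p.2) = S.hi pt p.1 :=
  iter_eq hB.lin (eqv_hl h) (hB.int h).le

theorem ps_it (hB : Base S pt) (h : S.Pr pt p.1 p.2) {i : ℕ} (hi : i ≤ kp S pt p) :
    S.ps (S.cw^[i] (S.lo pt p.2)) = S.ps (S.lo pt p.2) - i := by
  apply ps_iter hB.lin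
  unfold kp at hi
  omega

theorem it_mem (hB : Base S pt) (h : S.Pr pt p.1 p.2) {i : ℕ} (h1 : 1 ≤ i) (hi : i ≤ kp S pt p) :
    (S.cw^[i] (S.lo pt p.2)).1 ∈ S.pA pt p.1 p.2 := by
  have hA := hB.isIn_pA h
  rw [hA.mem_iff hB.lin hB.loopless ((eqv_hl h).symm.trans (cw_iter_eqv S i _)), ps_it hB h hi]
  have := hB.int h
  unfold kp at hi
  omega

theorem it_eqv (h : S.Pr pt p.1 p.2) (i : ℕ) : S.Eqv p.1 (S.cw^[i] (S.lo pt p.2)) :=
  (h.b.eqv_hi.trans (eqv_hl h).symm).trans (cw_iter_eqv S i _)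

theorem mem_fanC_iff (hB : Base S pt) (h : S.Pr pt p.1 p.2) {c : Sd I} : c ∈ fanC S pt p ↔
    ∃ i, i < kp S pt p ∧ c = S.cw^[i + 1] (S.lo pt p.2) := by
  have hA := hB.isIn_pA h
  rw [mem_fanC]
  constructor
  · rintro ⟨_, h2, h3⟩
    have he : S.Eqv (S.hi pt p.1) c := h.b.eqv_hi.symm.trans h2
    rw [hA.mem_iff hB.lin hB.loopless he] at h3
    have h4 := iter_eq hB.lin ((eqv_hl h).trans he) (by omega)
    refine ⟨S.ps (S.lo pt p.2) - S.ps c - 1, ?_, ?_⟩
    · unfold kp; omega
    · rw [show S.ps (S.lo pt p.2) - S.ps c - 1 + 1 = S.ps (S.lo pt p.2) - S.ps c by omega, h4]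
  · rintro ⟨i, hi, rfl⟩
    have h1 := it_mem hB h (i := i + 1) (by omega) (by omega)
    exact ⟨hA.sub h1, it_eqv h _, h1⟩

/-- the sector lies in the torso -/
theorem it_tor (hE : Env S pt X V) (hp : p ∈ S.CP pt X V) {i : ℕ} (h1 : 1 ≤ i)
    (hi : i ≤ kp S pt p) : (S.cw^[i] (S.lo pt p.2)).1 ∈ tor S pt p := by
  have hB := hE.base
  have cp := (mem_CP.1 hp).1
  rw [mem_tor hE hp]
  have hm := it_mem hB cp.toPr h1 hi
  refine ⟨hm, fun q hq hs => ?_⟩
  have hq' := (mem_CP.1 ((hE.mem_CP_pA hp).2 ⟨hq, hs⟩))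
  have cq := hq'.1
  have hne : ¬ S.Eqv (S.hi pt p.1) (S.hi pt q.1) := fun h =>
    hq'.2.2.2 ((cp.toPr.b.eqv_hi.trans h).trans cq.toPr.b.eqv_hi.symm)
  exact hB.fan (hB.isIn_pA cp.toPr) (hB.isIn_pA cq.toPr) hne hs.1
    (cp.toPr.b.eqv_hi.symm.trans (it_eqv cp.toPr i)) hm

/-- the fan of a pair whose torso has no eared triangle -/
theorem fanIn_of (hE : Env S pt X V) (H : RHyp S pt X) (hp : p ∈ X0 S pt X V) :
    FanIn S X (S.pA pt p.1 p.2) (S.lo pt p.2) (kp S pt p) := by
  rw [mem_X0] at hp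
  obtain ⟨hp, hne⟩ := hp
  have hB := hE.base
  have hl := hB.lin
  have cp := (mem_CP.1 hp).1
  have hA := hB.isIn_pA cp.toPr
  have hint := hB.int cp.toPr
  have hgl : ∀ i ≤ kp S pt p, S.g (S.cw^[i] (S.lo pt p.2)) ≠ S.cw^[i] (S.lo pt p.2) := by
    intro i hi
    rw [← ps_pos_iff hl, ps_it hB cp.toPr hi]
    have h1 : 0 < S.ps (S.hi pt p.1) := (ps_pos_iff hl).2 hA.gl
    unfold kp at hi
    omega
  refine ⟨hE.subA p hp, ?_, ?_, kp_pos hB cp.toPr, hgl, fun i h1 h2 => it_mem hB cp.toPr h1 h2, ?_⟩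
  · intro hm
    rw [hA.mem_iff hl hB.loopless hA.eqv] at hm
    omega
  · rw [iter_kp hB cp.toPr]
    exact hA.bd
  · intro i h1 h2
    have hm := it_mem hB cp.toPr h1 h2
    refine face_of hB H (hE.subA p hp hm) (hgl i h2) ?_ ?_ ?_
    · refine unrot_glued_of_lt hl (b := S.lo pt p.2) (cw_iter_eqv S i _).symm ?_
      rw [ps_it hB cp.toPr h2]
      have : 0 < S.ps (S.lo pt p.2) := (ps_pos_iff hl).2 hA.gl'
      omega
    · intro hb
      rcases hB.blade_in_pA cp (Blade.bladeAt hb) (it_eqv cp.toPr i) hm with h | h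
      · rw [← h.1] at h; exact hb.not_A h.2
      · rw [← h.1] at h; exact hb.not_B h.2
    · intro hc
      exact hne _ hc (it_tor hE hp h1 h2)

theorem sum_fanC (hB : Base S pt) (h : S.Pr pt p.1 p.2) :
    ∑ c ∈ fanC S pt p, cang pt c
      = ∑ i ∈ range (kp S pt p), cang pt (S.cw^[i + 1] (S.lo pt p.2)) := by
  classical
  have h1 : fanC S pt p = (range (kp S pt p)).image (fun i => S.cw^[i + 1] (S.lo pt p.2)) := by
    ext c
    rw [mem_fanC_iff hB h, mem_image]
    constructor
    · rintro ⟨i, hi, rfl⟩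
      exact ⟨i, mem_range.2 hi, rfl⟩
    · rintro ⟨i, hi, rfl⟩
      exact ⟨i, mem_range.1 hi, rfl⟩
  rw [h1, sum_image]
  intro i hi j hj hij
  have hi' := mem_range.1 (mem_coe.1 hi)
  have hj' := mem_range.1 (mem_coe.1 hj)
  have e1 := ps_it hB h (i := i + 1) (by omega)
  have e2 := ps_it hB h (i := j + 1) (by omega)
  simp only at hij
  rw [hij, e2] at e1
  have := hB.int h
  unfold kp at hi' hj'
  omega

theorem vp_eq (hE : Env S pt X V) (hp : p ∈ S.CP pt X V) :
    vp S pt X p = vz S X (S.cw (S.lo pt p.2)) := by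
  have hB := hE.base
  have cp := (mem_CP.1 hp).1
  have h1 : (S.cw (S.lo pt p.2)).1 ∈ S.pA pt p.1 p.2 :=
    it_mem hB cp.toPr (i := 1) le_rfl (kp_pos hB cp.toPr)
  rw [vz, if_pos (hE.subA p hp h1)]
  rfl

theorem vp_eqv (h : S.Pr pt p.1 p.2) : S.Eqv p.1 (vp S pt X p) :=
  ((h.eqv.trans h.b'.eqv_lo).trans (S.cw_eqv _)).trans
    ((last_eqv (S.keep X) _).mono (keep_le S X))

/-- all corners of the sector are in one visit of the region -/
theorem fan_keep (hE : Env S pt X V) (hp : p ∈ S.CP pt X V) {i : ℕ} (h1 : 1 ≤ i)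
    (hi : i ≤ kp S pt p) : (S.keep X).last (S.cw^[i] (S.lo pt p.2)) = vp S pt X p := by
  have hB := hE.base
  have hl := hB.lin
  have cp := (mem_CP.1 hp).1
  have hm : ∀ i, 1 ≤ i → i ≤ kp S pt p → (S.cw^[i] (S.lo pt p.2)).1 ∈ X := fun i h1 h2 =>
    hE.subA p hp (it_mem hB cp.toPr h1 h2)
  induction i with
  | zero => omega
  | succ i ih =>
    rcases Nat.eq_zero_or_pos i with h2 | h2
    · subst h2; rfl
    · rw [← ih h2 (by omega), Function.iterate_succ_apply']
      have h3 := hm i h2 (by omega)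
      have h4 := hm (i + 1) (by omega) hi
      rw [Function.iterate_succ_apply'] at h4
      have hg : S.g (S.cw^[i] (S.lo pt p.2)) ≠ S.cw^[i] (S.lo pt p.2) := by
        rw [← ps_pos_iff hl, ps_it hB cp.toPr (by omega)]
        have := hB.int cp.toPr
        unfold kp at hi
        omega
      rw [cw_fst hg] at h4
      have h5 : (S.keep X).g (S.cw^[i] (S.lo pt p.2)) = S.g (S.cw^[i] (S.lo pt p.2)) := by
        rw [keep_g, if_pos ⟨h3, h4⟩]
      have h6 : (S.keep X).cw (S.cw^[i] (S.lo pt p.2)) = S.cw (S.cw^[i] (S.lo pt p.2)) := by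
        rw [cw, cw, h5]
      rw [← h6, last_cw (keep_linear hl X)]

/-- a wide pair is not at an extreme point -/
theorem wide_ext (hG : S.Geo pt) (hE : Env S pt X V) {Ext : Finset Pt}
    (E : Helper41.AG7.ExtOf S pt X Ext) :
    ∀ p ∈ X0 S pt X V, wide S pt p → pt (vp S pt X p) ∉ Ext := by
  intro p hp hw hext
  rw [mem_X0] at hp
  have hB := hE.base
  have hl := hB.lin
  have cp := (mem_CP.1 hp.1).1
  have hm1 := hE.subA p hp.1 (it_mem hB cp.toPr (i := 1) le_rfl (kp_pos hB cp.toPr))
  have hpt : pt (vp S pt X p) = pt (S.cw^[1] (S.lo pt p.2)) := by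
    rw [← hG.pt_eqv (vp_eqv (X := X) cp.toPr), hG.pt_eqv (it_eqv cp.toPr 1)]
  have := E.small _ hm1 (by rw [← hpt]; exact hext) (fanC S pt p) (by
    intro d hd
    rw [mem_fanC_iff hB cp.toPr] at hd
    obtain ⟨i, hi, rfl⟩ := hd
    refine ⟨hE.subA p hp.1 (it_mem hB cp.toPr (by omega) (by omega)), ?_⟩
    rw [eqv_iff (keep_linear hl X), fan_keep hE hp.1 le_rfl (kp_pos hB cp.toPr),
      fan_keep hE hp.1 (by omega) (by omega)])
  unfold wide at hw
  linarith

/-- at most one wide pair at a visit -/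
theorem wide_inj (hG : S.Geo pt) (hE : Env S pt X V) : ∀ p ∈ X0 S pt X V, ∀ q ∈ X0 S pt X V,
    wide S pt p → wide S pt q → vp S pt X p = vp S pt X q → p = q := by
  classical
  intro p hp q hq hwp hwq he
  rw [mem_X0] at hp hq
  have hB := hE.base
  have cp := (mem_CP.1 hp.1).1
  have cq := (mem_CP.1 hq.1).1
  by_contra hne
  have hv : S.Eqv p.1 q.1 := by
    refine (vp_eqv (X := X) cp.toPr).trans ?_
    rw [he]
    exact (vp_eqv (X := X) cq.toPr).symm
  have hne1 : p.1 ≠ q.1 := fun h => hne (Prod.ext h (hB.cons_unique cp cq h))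
  have hd := hB.disj_same cp cq hv hne1
  have hdis : Disjoint (fanC S pt p) (fanC S pt q) := by
    rw [disjoint_left]
    intro c h1 h2
    rw [mem_fanC] at h1 h2
    exact disjoint_left.1 hd h1.2.2 h2.2.2
  have h1 := hG.sum_lt (X := fanC S pt p ∪ fanC S pt q) (p := pt p.1) (by
    intro c hc
    rcases mem_union.1 hc with h | h
    · exact (mem_fanC.1 h).1
    · exact (mem_fanC.1 h).1) (by
    intro c hc
    rcases mem_union.1 hc with h | h
    · exact (hG.pt_eqv (mem_fanC.1 h).2.1).symm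
    · rw [hG.pt_eqv hv]
      exact (hG.pt_eqv (mem_fanC.1 h).2.1).symm)
  rw [sum_union hdis] at h1
  unfold wide at hwp hwq
  linarith

/-- in the closed case with only trivial pairs there is nothing to pay -/
theorem X0_eq_empty (hE : Env S pt X V) (ht : ∀ u u', S.Pr pt u u' → S.Triv pt u u') :
    X0 S pt X V = ∅ := by
  rw [eq_empty_iff_forall_notMem]
  intro p hp
  rw [mem_X0] at hp
  have cp := (mem_CP.1 hp.1).1
  obtain ⟨c, hc, hA⟩ := ht p.1 p.2 cp.toPr
  refine hp.2 c hc ((mem_tor hE hp.1).2 ⟨by rw [hA]; exact mem_singleton_self _, fun q hq hs => ?_⟩)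
  have cq := (mem_CP.1 hq).1
  obtain ⟨t, ht⟩ := hE.base.pA_nonempty cq.toPr
  have h1 := card_lt_card hs
  rw [hA, card_singleton] at h1
  have h2 := card_pos.2 ⟨t, ht⟩
  omega

end env

/-! ### the bills (a) in the open case -/

section opn

variable {V : Sd I → Prop} {b b' : Sd I} {Ext : Finset Pt} {R : Set Pt}

/-- BILLS (a) -/
theorem bill_a_open (hC : Cex S pt R) (O : Helper41.AG7.Op S pt X b b') (hE : Env S pt X V)
    (hV : ∀ z, S.Eqv b z → V z) (E : Helper41.AG7.ExtOf S pt X Ext)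
    (hUb : ∀ d ∈ O.H.reg.Ubs, Helper41.AG7.aD S X b b' d ∉ O.H.reg.zeros →
      (O.H.reg.A (Helper41.AG7.aD S X b b' d)).card = 1 ∧
        O.H.reg.bl (Helper41.AG7.xD S b b' d) = some (Helper41.AG7.aD S X b b' d)) :
    ∀ p ∈ X0 S pt X V, (vp S pt X p ∈ O.H.reg.zeros ∧ wide S pt p) ∨
      ∃ x ∈ O.H.reg.unused, x.1 ∈ tor S pt p ∧
        (∀ d ∈ Sts S X, x = (Helper41.AG7.sD S b b' d, d) →
          pt (Helper41.AG7.aD S X b b' d) ∉ Ext) ∧
        (∀ d ∈ O.H.reg.Ubs, Helper41.AG7.aD S X b b' d ∉ O.H.reg.zeros →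
          x ≠ (Helper41.AG7.sD S b b' d, Helper41.AG7.xD S b b' d)) := by
  classical
  intro p hp
  have hB := hE.base
  have hl := hB.lin
  have hG := O.geo
  have hpC := (mem_X0.1 hp).1
  have cp := (mem_CP.1 hpC).1
  have hnV := (mem_CP.1 hpC).2.2.2
  have F := fanIn_of hE O.H hp
  obtain ⟨hk2, hcase⟩ := fan_bill O.H hC F
  have hsubX := hE.subA p hpC
  have hStU : ∀ d ∈ O.H.reg.Ubs, d ∈ Sts S X := fun d hd => by
    rw [Helper41.AG7.Reg.Ubs, mem_filter] at hd
    exact hd.1
  have htri : ∀ x y : Sd I, x.1 ∈ X → y.1 = x.1 → S.Eqv x y → x = y := fun x y h1 h2 h3 =>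
    hB.tri x y (O.H.sub h1) h2 h3
  rcases hcase with ⟨i, h1, h2, hbl, hun⟩ | ⟨hw, _, hcase⟩
  · -- an inner diagonal
    right
    obtain ⟨a, ha⟩ : ∃ a, a = S.cw^[i] (S.lo pt p.2) := ⟨_, rfl⟩
    have hg : S.g a ≠ a := by rw [ha]; exact F.gl i h2.le
    have hsucc : (S.cw^[i + 1] (S.lo pt p.2)).1 = (S.g a).1 := by
      rw [Function.iterate_succ_apply', ← ha, cw_fst hg]
    have t1 : a.1 ∈ tor S pt p := by rw [ha]; exact it_tor hE hpC h1 h2.le
    have t2 : (S.g a).1 ∈ tor S pt p := by rw [← hsucc]; exact it_tor hE hpC (by omega) (by omega)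
    have f1 : S.Face a.1 := by rw [ha]; exact F.face i h1 h2.le
    have f2 : S.Face (S.g a).1 := by rw [← hsucc]; exact F.face (i + 1) (by omega) (by omega)
    have m1 : a.1 ∈ X := hsubX (tor_sub t1)
    have m2 : (S.g a).1 ∈ X := hsubX (tor_sub t2)
    rw [hsucc, ← ha] at hun
    have i1 : dg S a ∈ inc S a.1 := dg_mem_inc hg
    have i2 : dg S a ∈ inc S (S.g a).1 := (dg_mem_inc_iff hg).2 (Or.inr rfl)
    have hnst : dg S a ∉ Sts S X := by
      intro h
      obtain ⟨e, e1, e2, e3, e4⟩ := mem_Sts.1 h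
      rcases dg_eq_iff.1 e4 with h5 | h5
      · rw [h5] at e2; exact e2 m2
      · rw [h5, S.invol] at e2; exact e2 m1
    -- one slot is unused, if it is reserved for (Ub) then take the other one
    have key : ∀ t t' : I, t ≠ t' → t ∈ tor S pt p → t' ∈ tor S pt p → S.Face t' →
        dg S a ∈ inc S t' → (t, dg S a) ∈ O.H.reg.unused →
        ∃ x ∈ O.H.reg.unused, x.1 ∈ tor S pt p ∧
        (∀ d ∈ Sts S X, x = (Helper41.AG7.sD S b b' d, d) →
          pt (Helper41.AG7.aD S X b b' d) ∉ Ext) ∧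
        (∀ d ∈ O.H.reg.Ubs, Helper41.AG7.aD S X b b' d ∉ O.H.reg.zeros →
          x ≠ (Helper41.AG7.sD S b b' d, Helper41.AG7.xD S b b' d)) := by
      intro t t' htt ht ht' hf' hi' hu
      by_cases hres : ∃ d ∈ O.H.reg.Ubs, Helper41.AG7.aD S X b b' d ∉ O.H.reg.zeros ∧
          (t, dg S a) = (Helper41.AG7.sD S b b' d, Helper41.AG7.xD S b b' d)
      · obtain ⟨d, hd, hz, hx⟩ := hres
        obtain ⟨hx1, hx2⟩ := Prod.mk.inj hx
        obtain ⟨c1, c2⟩ := hUb d hd hz
        refine ⟨(t', dg S a), ?_, ht', ?_, ?_⟩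
        · exact O.H.reg.unused_of_card_one (mem_faces.2 ⟨hsubX (tor_sub ht'), hf'⟩) hi'
            (by rw [hx2]; exact c2) c1
        · intro e he hxe
          exact absurd he (by rw [← (Prod.mk.inj hxe).2]; exact hnst)
        · intro e he hze hxe
          obtain ⟨y1, y2⟩ := Prod.mk.inj hxe
          obtain ⟨c3, c4⟩ := hUb e he hze
          have h5 : Helper41.AG7.aD S X b b' d = Helper41.AG7.aD S X b b' e := by
            rw [← hx2] at c2
            rw [← y2, c2] at c4
            exact Option.some.inj c4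
          have h6 := O.aD_inj d (hStU d hd) e (hStU e he) h5
          rw [← h6] at y1
          exact htt (hx1.trans y1.symm)
      · refine ⟨(t, dg S a), hu, ht, ?_, ?_⟩
        · intro e he hxe
          exact absurd he (by rw [← (Prod.mk.inj hxe).2]; exact hnst)
        · intro d hd hz hx
          exact hres ⟨d, hd, hz, hx⟩
    rcases hun with h | h
    · exact key a.1 (S.g a).1 (S.ne a hg).symm t1 t2 f2 i2 h
    · exact key (S.g a).1 a.1 (S.ne a hg) t2 t1 f1 i1 h
  · have hwide : wide S pt p := by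
      unfold wide
      rw [sum_fanC hB cp.toPr]
      exact hw
    have hvp := vp_eq hE hpC
    rw [← hvp] at hcase
    have hext := wide_ext hG hE E p hp hwide
    obtain ⟨c, hc⟩ : ∃ c, c = S.lo pt p.2 := ⟨_, rfl⟩
    have hcpt : pt c = pt (vp S pt X p) := by
      rw [← hG.pt_eqv (vp_eqv (X := X) cp.toPr), hG.pt_eqv (it_eqv cp.toPr 0)]
      rw [hc]; rfl
    have hgc : S.g c ≠ c := by rw [hc]; exact F.gl 0 (by omega)
    have hpc : S.Eqv p.1 c := by rw [hc]; exact it_eqv cp.toPr 0
    have hcwX : (S.g c).1 ∈ X := by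
      have := hsubX (it_mem hB cp.toPr (i := 1) le_rfl F.pos)
      rw [Function.iterate_one, ← hc, cw_fst hgc] at this
      exact this
    rcases hcase with h | ⟨hA, hu⟩ | ⟨hA, hu⟩
    · exact Or.inl ⟨h, hwide⟩
    · right
      rw [← hc] at hA hu
      refine ⟨_, hu, ?_, ?_, ?_⟩
      · have := it_tor hE hpC (i := 1) le_rfl F.pos
        rw [Function.iterate_one, ← hc] at this
        exact this
      · intro d hd hx
        obtain ⟨_, hx2⟩ := Prod.mk.inj hx
        rcases O.mem_St.1 hd with rfl | rfl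
        · rcases dg_eq_iff.1 hx2 with h5 | h5
          · exact absurd (hV p.1 (by rw [h5]; exact hpc.symm)) hnV
          · rw [O.aD_b, Helper41.AG7.pt_last hG, h5, hG.mat c hgc, hcpt]
            exact hext
        · rcases dg_eq_iff.1 hx2 with h5 | h5
          · exfalso
            have := O.bX'.2.1
            rw [h5] at this
            exact this hcwX
          · exfalso
            refine hnV (hV p.1 (O.eqv.trans ?_))
            rw [h5]
            exact (hpc.trans (Eqv.of_glued hgc)).symm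
      · intro d hd hz hx
        obtain ⟨hx1, hx2⟩ := Prod.mk.inj hx
        obtain ⟨c1, c2⟩ := hUb d hd hz
        rw [cw_fst hgc] at hx1
        have hb : bl S X (S.Blk pt) (dg S c) = some (vp S pt X p) := by
          have : dg S c ∈ Aw S X (S.Blk pt) (vp S pt X p) := by rw [hA]; exact mem_singleton_self _
          exact (mem_filter.1 this).2
        have hw2 : Helper41.AG7.aD S X b b' d = vp S pt X p := by
          rw [← hx2] at c2
          have c3 : bl S X (S.Blk pt) (dg S c) = some (Helper41.AG7.aD S X b b' d) := c2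
          rw [hb] at c3
          exact (Option.some.inj c3).symm
        have hve : S.Eqv c (vp S pt X p) := hpc.symm.trans (vp_eqv cp.toPr)
        rcases O.mem_St.1 (hStU d hd) with rfl | rfl
        · rw [O.sD_b] at hx1
          rw [O.xD_b] at hx2
          rcases dg_eq_iff.1 hx2 with h5 | h5
          · refine S.ne c hgc ?_
            rw [hx1, ← h5, rot_fst]
          · have h6 : S.Eqv (rot b) (unrot b) := by
              rw [O.aD_b] at hw2
              have h7 : S.Eqv (rot b) ((S.keep X).last (rot b)) :=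
                (last_eqv (S.keep X) _).mono (keep_le S X)
              rw [hw2] at h7
              refine (h7.trans hve.symm).trans ?_
              have h8 := Eqv.of_glued hgc
              rw [← h5, rot_rot] at h8
              exact h8
            have h7 := htri (rot b) (unrot b) O.bX.1 rfl h6
            exact unrot_ne_rot b h7.symm
        · rw [O.sD_b'] at hx1
          rw [O.xD_b'] at hx2
          rcases dg_eq_iff.1 hx2 with h5 | h5
          · refine S.ne c hgc ?_
            rw [hx1, ← h5, unrot_fst]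
          · have h6 : S.cw c = b' := by rw [cw_of_glued hgc, ← h5, rot_unrot]
            have h7 := hsubX (it_mem hB cp.toPr (i := 2) (by omega) hk2)
            have h8 : S.cw^[2] (S.lo pt p.2) = S.cw b' := by
              rw [← hc, Function.iterate_succ_apply', Function.iterate_one, h6]
            rw [h8, cw_fst O.bX'.2.2] at h7
            exact O.bX'.2.1 h7
    · right
      obtain ⟨c0, hc0⟩ : ∃ c0, c0 = S.cw^[kp S pt p] (S.lo pt p.2) := ⟨_, rfl⟩
      rw [← hc0] at hA hu
      have hg0 : S.g c0 ≠ c0 := by rw [hc0]; exact F.gl _ le_rfl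
      have hpc0 : S.Eqv p.1 c0 := by rw [hc0]; exact it_eqv cp.toPr _
      have hX0 : c0.1 ∈ X := by rw [hc0]; exact hsubX (it_mem hB cp.toPr F.pos le_rfl)
      have hpt0 : pt c0 = pt (vp S pt X p) := by
        rw [← hG.pt_eqv (vp_eqv (X := X) cp.toPr), hG.pt_eqv hpc0]
      refine ⟨_, hu, ?_, ?_, ?_⟩
      · have := it_tor hE hpC F.pos le_rfl
        rw [← hc0] at this
        exact this
      · intro d hd hx
        obtain ⟨_, hx2⟩ := Prod.mk.inj hx
        rcases O.mem_St.1 hd with rfl | rfl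
        · rcases dg_eq_iff.1 hx2 with h5 | h5
          · exact absurd (hV p.1 (by rw [h5]; exact hpc0.symm)) hnV
          · exfalso
            have := O.bX.2.1
            rw [h5, S.invol] at this
            exact this hX0
        · rcases dg_eq_iff.1 hx2 with h5 | h5
          · rw [O.aD_b', Helper41.AG7.pt_last hG, h5, hpt0]
            exact hext
          · exfalso
            have := O.bX'.2.1
            rw [h5, S.invol] at this
            exact this hX0
      · intro d hd hz hx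
        obtain ⟨hx1, hx2⟩ := Prod.mk.inj hx
        obtain ⟨c1, c2⟩ := hUb d hd hz
        have hb : bl S X (S.Blk pt) (dg S c0) = some (vp S pt X p) := by
          have : dg S c0 ∈ Aw S X (S.Blk pt) (vp S pt X p) := by rw [hA]; exact mem_singleton_self _
          exact (mem_filter.1 this).2
        have hw2 : Helper41.AG7.aD S X b b' d = vp S pt X p := by
          rw [← hx2] at c2
          have c3 : bl S X (S.Blk pt) (dg S c0) = some (Helper41.AG7.aD S X b b' d) := c2
          rw [hb] at c3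
          exact (Option.some.inj c3).symm
        have hve : S.Eqv c0 (vp S pt X p) := hpc0.symm.trans (vp_eqv cp.toPr)
        rcases O.mem_St.1 (hStU d hd) with rfl | rfl
        · rw [O.sD_b] at hx1
          rw [O.xD_b] at hx2
          rcases dg_eq_iff.1 hx2 with h5 | h5
          · have h6 := hsubX (it_mem hB cp.toPr (i := kp S pt p - 1) (by omega) (by omega))
            have h7 : S.cw (S.cw^[kp S pt p - 1] (S.lo pt p.2)) = c0 := by
              rw [← Function.iterate_succ_apply' S.cw, hc0]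
              congr 2
              omega
            have h8 := F.gl (kp S pt p - 1) (by omega)
            rw [cw_of_glued h8, ← h5] at h7
            have h9 : S.cw^[kp S pt p - 1] (S.lo pt p.2) = S.g b := by
              rw [← rot_injective h7, S.invol]
            rw [h9] at h6
            exact O.bX.2.1 h6
          · refine S.ne c0 hg0 ?_
            rw [← h5, rot_fst, hx1]
        · rw [O.sD_b'] at hx1
          rw [O.xD_b'] at hx2
          rcases dg_eq_iff.1 hx2 with h5 | h5
          · have h6 : S.Eqv (unrot b') b' := by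
              rw [O.aD_b'] at hw2
              have h7 : S.Eqv b' ((S.keep X).last b') :=
                (last_eqv (S.keep X) _).mono (keep_le S X)
              rw [hw2] at h7
              rw [h5]
              exact hve.trans h7.symm
            have h7 := htri (unrot b') b' O.bX'.1 rfl h6
            exact unrot_ne b' h7
          · refine S.ne c0 hg0 ?_
            rw [← h5, unrot_fst, hx1]

end opn

end Pool.Agent.Helper29.AG7
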