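import Pool.Agent.Helper29.AG7.Dict
import Pool.Agent.AG.Blades

/-!
# AG section 7: the record `Reg` of a region

`RHyp S pt X` collects the facts about the object `S` and the region `X` which are used for the record
`reg : Reg I (Finset (Sd I)) (Sd I)` of `Helper41/AG7/Count.lean`.
-/

set_option autoImplicit false
set_option linter.unusedSectionVars false
open Finset

namespace Pool.Agent.Helper29.AG7

open AG AG.Obj

variable {I : Type} [DecidableEq I]

/-- the facts used for the record of the region `X` (`X = R` or `X = S.F`) -/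
structure RHyp (S : Obj I) (pt : Sd I → Pt) (X : Finset I) : Prop where
  sub : X ⊆ S.F
  lin : S.Linear
  /-- no diagonal is blocked at both ends -/
  b1 : ∀ a, S.Blk pt a → ¬ S.Blk pt (S.g a)
  /-- (G1) -/
  g1 : G1 S (S.Blk pt)
  /-- two triangles are not glued along two sides -/
  sh : ∀ a b, a.1 = b.1 → a ≠ b → S.g a ≠ a → S.g b ≠ b → (S.g a).1 ≠ (S.g b).1
  /-- faces, blades, eared triangles -/
  three : ∀ t ∈ S.F, S.Face t ∨ (∃ c : Sd I, c.1 = t ∧ S.Blade c) ∨ (∃ c : Sd I, c.1 = t ∧ S.Eared c)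
  /-- (S1) : the neighbour of a blade across a U diagonal is a face -/
  s1 : ∀ c a, S.Blade c → a.1 = c.1 → S.IsU pt a → S.Face (S.g a).1
  /-- (S2) : a pair-ready blade has a neighbour which is a face -/
  s2 : ∀ c, S.Blade c → S.PairAt pt c → S.Face (S.g c).1 ∨ S.Face (S.g (unrot c)).1
  /-- no candidate leaves the region: for a stub `a` whose inner triangle is a blade with a pair at its apex `c`, not both the
  outer triangle is a face and the other neighbour is not a face -/
  outP : ∀ c a b, S.Blade c → c.1 ∈ X → S.PairAt pt c → ((a = c ∧ b = unrot c) ∨ (a = unrot c ∧ b = c)) →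
    (S.g a).1 ∉ X → S.Face (S.g a).1 → S.Face (S.g b).1

variable {S : Obj I} {pt : Sd I → Pt} {X : Finset I}

open Classical in
/-- faces of the region -/
noncomputable def faces (S : Obj I) (X : Finset I) : Finset I := X.filter (fun t => S.Face t)

open Classical in
/-- blades of the region -/
noncomputable def blades (S : Obj I) (X : Finset I) : Finset I :=
  X.filter (fun t => ∃ c : Sd I, c.1 = t ∧ S.Blade c)

open Classical in
/-- eared triangles of the region -/
noncomputable def eareds (S : Obj I) (X : Finset I) : Finset I :=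
  X.filter (fun t => ∃ c : Sd I, c.1 = t ∧ S.Eared c)

theorem mem_faces {t : I} : t ∈ faces S X ↔ t ∈ X ∧ S.Face t := by
  classical
  rw [faces, mem_filter]

theorem mem_blades {t : I} : t ∈ blades S X ↔ t ∈ X ∧ ∃ c : Sd I, c.1 = t ∧ S.Blade c := by
  classical
  rw [blades, mem_filter]

theorem mem_eareds {t : I} : t ∈ eareds S X ↔ t ∈ X ∧ ∃ c : Sd I, c.1 = t ∧ S.Eared c := by
  classical
  rw [eareds, mem_filter]

theorem face_glued {a : Sd I} (h : S.Face a.1) : S.g a ≠ a := h.2 a.2

theorem blade_not_face {c : Sd I} (h : S.Blade c) : ¬ S.Face c.1 := fun hf =>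
  face_glued (a := rot c) hf h.2.2.1

theorem eared_not_glued {c : Sd I} (h : S.Eared c) : S.g (rot c) = rot c := S.earFree _ h.2.2

theorem eared_not_face {c : Sd I} (h : S.Eared c) : ¬ S.Face c.1 := fun hf =>
  face_glued (a := rot c) hf (eared_not_glued h)

/-- the apex corner of a blade is unique -/
theorem corner_unique {b c : Sd I} (hb : S.g b ≠ b) (hb' : S.g (unrot b) ≠ unrot b)
    (hc : S.g (rot c) = rot c) (h : b.1 = c.1) : b = c := by
  rcases eq_of_fst_eq h with h1 | h1 | h1
  · exact h1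
  · rw [h1] at hb; exact absurd hc hb
  · rw [h1, unrot_unrot] at hb'
    exact absurd hc hb'

theorem blade_not_eared {c e : Sd I} (h : S.Blade c) (he : S.Eared e) : c.1 ≠ e.1 := by
  intro h1
  have h2 : c = e := corner_unique h.1 h.2.1 (eared_not_glued he) h1
  exact h.2.2.2 (h2 ▸ he.2.2)

theorem gs_face {t : I} (h : S.Face t) : (gs S t).card = 3 := by
  have : gs S t = (univ : Finset (Fin 3)).image (fun i => (t, i)) := by
    rw [gs]
    congr 1
    rw [filter_eq_self]
    exact fun i _ => h.2 i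
  rw [this, card_image_of_injective _ (fun i j hij => (Prod.mk.inj hij).2)]
  rfl

theorem gs_two {c : Sd I} (h1 : S.g c ≠ c) (h2 : S.g (unrot c) ≠ unrot c) (h3 : S.g (rot c) = rot c) :
    gs S c.1 = {c, unrot c} := by
  ext a
  rw [mem_gs, mem_insert, mem_singleton]
  constructor
  · rintro ⟨h, h'⟩
    rcases eq_of_fst_eq h with h4 | h4 | h4
    · exact Or.inl h4
    · rw [h4] at h'; exact absurd h3 h'
    · exact Or.inr h4
  · rintro (rfl | rfl)
    · exact ⟨rfl, h1⟩
    · exact ⟨rfl, h2⟩

theorem inc_two {c : Sd I} (h1 : S.g c ≠ c) (h2 : S.g (unrot c) ≠ unrot c) (h3 : S.g (rot c) = rot c) :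
    inc S c.1 = {dg S c, dg S (unrot c)} := by
  rw [inc, gs_two h1 h2 h3, image_insert, image_singleton]

theorem card_gs_two {c : Sd I} (h1 : S.g c ≠ c) (h2 : S.g (unrot c) ≠ unrot c)
    (h3 : S.g (rot c) = rot c) : (gs S c.1).card = 2 := by
  rw [gs_two h1 h2 h3, card_pair (unrot_ne c).symm]

/-- the neighbour of `t` across `d` is a face -/
def act (S : Obj I) (t : I) (d : Finset (Sd I)) : Prop :=
  ∃ a, a.1 = t ∧ S.g a ≠ a ∧ dg S a = d ∧ S.Face (S.g a).1

/-- the triangle outside the region at the stub `d` is a blade -/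
def outB (S : Obj I) (X : Finset I) (d : Finset (Sd I)) : Prop :=
  ∃ a, a.1 ∈ X ∧ (S.g a).1 ∉ X ∧ S.g a ≠ a ∧ d = dg S a ∧ ∃ c, c.1 = (S.g a).1 ∧ S.Blade c

open Classical in
/-- the pair-ready blades of the region with exactly one neighbour which is a face, this neighbour is in the region -/
noncomputable def CPs (S : Obj I) (pt : Sd I → Pt) (X : Finset I) : Finset I :=
  (blades S X).filter (fun t => ∃ c a b, c.1 = t ∧ S.Blade c ∧ S.PairAt pt c ∧
    ((a = c ∧ b = unrot c) ∨ (a = unrot c ∧ b = c)) ∧ S.Face (S.g a).1 ∧ (S.g a).1 ∈ X ∧ ¬ S.Face (S.g b).1)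

namespace RHyp

variable (H : RHyp S pt X)
include H

theorem union : (faces S X ∪ blades S X) ∪ eareds S X = X := by
  ext t
  rw [mem_union, mem_union, mem_faces, mem_blades, mem_eareds]
  constructor
  · rintro ((h | h) | h) <;> exact h.1
  · intro h
    rcases H.three t (H.sub h) with h1 | h1 | h1
    · exact Or.inl (Or.inl ⟨h, h1⟩)
    · exact Or.inl (Or.inr ⟨h, h1⟩)
    · exact Or.inr ⟨h, h1⟩

/-- (S1) for the diagonal -/
theorem U_face {c a : Sd I} (hc : S.Blade c) (ha : a.1 = c.1) (hg : S.g a ≠ a)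
    (hU : bl S X (S.Blk pt) (dg S a) = none) : S.Face (S.g a).1 := by
  rw [bl_none] at hU
  exact H.s1 c a hc ha (AG.Geo.isU_iff.2 ⟨hg, hU.1, hU.2⟩)

theorem pair_of {t : I} {w : Sd I} {c : Sd I} (hc : S.Blade c) (hct : c.1 = t)
    (h : Aw S X (S.Blk pt) w = inc S t) : S.PairAt pt c := by
  have h1 : (Aw S X (S.Blk pt) w).card = 2 := by
    rw [h, ← hct, card_inc, card_gs_two hc.1 hc.2.1 hc.2.2.1]
  obtain ⟨b, hb1, hb2, hb3, hb4, hb5⟩ := host H.lin (fun a ha => ha.1) H.b1 H.g1 h1
  -- `b` is a corner of `t`: both diagonals are sides of `t`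
  have h2 : dg S b ∈ inc S t := by rw [← h, hb2]; exact mem_insert_self _ _
  have h3 : dg S (unrot b) ∈ inc S t := by
    rw [← h, hb2]; exact mem_insert_of_mem (mem_singleton_self _)
  have h4 : b.1 = t := by
    by_contra hne
    have e1 : t = (S.g b).1 := by
      rcases (dg_mem_inc_iff hb3.1).1 h2 with h5 | h5
      · exact absurd h5.symm hne
      · exact h5
    have e2 : t = (S.g (unrot b)).1 := by
      rcases (dg_mem_inc_iff hb5).1 h3 with h5 | h5
      · exact absurd h5.symm hne
      · exact h5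
    exact H.sh b (unrot b) rfl (unrot_ne b).symm hb3.1 hb5 (e1.symm.trans e2)
  have h5 : b = c := corner_unique hb3.1 hb5 hc.2.2.1 (h4.trans hct.symm)
  rw [← h5]
  exact ⟨hb3, hb4⟩

/-- the record of the region -/
noncomputable def reg : Helper41.AG7.Reg I (Finset (Sd I)) (Sd I) where
  face := faces S X
  blade := blades S X
  eared := eareds S X
  Dg := Dgs S X
  St := Sts S X
  V := (S.keep X).vis
  inc := inc S
  bl := bl S X (S.Blk pt)
  act := act S
  outB := outB S X
  CP := CPs S pt X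
  disj_fb := by
    rw [disjoint_left]
    intro t h1 h2
    obtain ⟨c, hc, hb⟩ := (mem_blades.1 h2).2
    exact blade_not_face hb (hc ▸ (mem_faces.1 h1).2)
  disj_fe := by
    rw [disjoint_left]
    intro t h1 h2
    obtain ⟨c, hc, hb⟩ := (mem_eareds.1 h2).2
    exact eared_not_face hb (hc ▸ (mem_faces.1 h1).2)
  disj_be := by
    rw [disjoint_left]
    intro t h1 h2
    obtain ⟨c, hc, hb⟩ := (mem_blades.1 h1).2
    obtain ⟨e, he, hb'⟩ := (mem_eareds.1 h2).2
    exact blade_not_eared hb hb' (hc.trans he.symm)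
  St_sub := Sts_sub S X
  inc_face := by
    intro t ht
    rw [mem_faces] at ht
    exact ⟨inc_sub ht.1, by rw [card_inc, gs_face ht.2]⟩
  inc_blade := by
    intro t ht
    rw [mem_blades] at ht
    obtain ⟨hX, c, rfl, hc⟩ := ht
    exact ⟨inc_sub hX, by rw [card_inc, card_gs_two hc.1 hc.2.1 hc.2.2.1]⟩
  inc_eared := by
    intro t ht
    rw [mem_eareds] at ht
    obtain ⟨hX, c, rfl, hc⟩ := ht
    exact ⟨inc_sub hX, by rw [card_inc, card_gs_two hc.1 hc.2.1 (eared_not_glued hc)]⟩
  inner_two := by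
    intro d hd hs
    rw [H.union]
    convert inner_two hd hs
  stub_one := by
    intro d hs
    rw [H.union]
    convert stub_one hs
  share := by
    intro t _ t' _ htt
    convert share H.sh htt
  bl_mem := fun d hd w h => bl_mem H.lin H.sub H.b1 hd h
  A_le := by
    intro w _
    have := A_le (X := X) H.lin (fun a ha => ha.1) H.b1 H.g1 w
    rw [Aw] at this
    convert this
  host := by
    intro w _ h
    have h' : (Aw S X (S.Blk pt) w).card = 2 := by
      rw [Aw]
      convert h
    obtain ⟨b, hb1, hb2, hb3, hb4, hb5⟩ := host H.lin (fun a ha => ha.1) H.b1 H.g1 h'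
    refine ⟨b.1, by rw [H.union]; exact hb1, ?_⟩
    have h3 : Aw S X (S.Blk pt) w ⊆ inc S b.1 := by
      rw [hb2]
      intro d hd
      rw [mem_insert, mem_singleton] at hd
      rcases hd with rfl | rfl
      · exact dg_mem_inc hb3.1
      · exact dg_mem_inc (a := unrot b) hb5
    intro d hd
    apply h3
    rw [Aw]
    exact hd
  visits := by
    rw [H.union]
    exact visits_eq S H.sub
  U_blades := by
    intro d hd hU
    rw [card_le_one]
    intro t ht t' ht'
    rw [mem_filter, mem_blades] at ht ht'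
    obtain ⟨⟨_, c, rfl, hc⟩, h1⟩ := ht
    obtain ⟨⟨_, c', rfl, hc'⟩, h2⟩ := ht'
    obtain ⟨a, ha1, ha2, rfl⟩ := mem_inc.1 h1
    by_contra hne
    have h3 : c'.1 = (S.g a).1 := by
      rcases (dg_mem_inc_iff ha2).1 h2 with h4 | h4
      · exact absurd (ha1.symm.trans h4.symm) hne
      · exact h4
    have h4 := H.U_face hc ha1 ha2 hU
    rw [← h3] at h4
    exact blade_not_face hc' h4
  U_blades_out := by
    intro d _ hU ho t ht hd
    rw [mem_blades] at ht
    obtain ⟨hX, c, rfl, hc⟩ := ht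
    obtain ⟨a, ha1, ha2, ha3, rfl, e, he, hb⟩ := ho
    have h3 : c.1 = a.1 := by
      rcases (dg_mem_inc_iff ha3).1 hd with h4 | h4
      · exact h4
      · rw [h4] at hX; exact absurd hX ha2
    have h4 := H.U_face hc h3.symm ha3 hU
    rw [← he] at h4
    exact blade_not_face hb h4
  pair_ready := by
    classical
    intro t ht hw
    rw [mem_blades] at ht
    obtain ⟨hX, c, rfl, hc⟩ := ht
    obtain ⟨w, _, hw⟩ := hw
    have hA : Aw S X (S.Blk pt) w = inc S c.1 := by
      rw [Aw, ← hw]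
    have hp := H.pair_of hc rfl hA
    have hi : inc S c.1 = {dg S c, dg S (unrot c)} := inc_two hc.1 hc.2.1 hc.2.2.1
    by_cases h1 : S.Face (S.g c).1
    · by_cases h2 : S.Face (S.g (unrot c)).1
      · left
        intro d hd
        rw [hi, mem_insert, mem_singleton] at hd
        rcases hd with rfl | rfl
        · exact ⟨c, rfl, hc.1, rfl, h1⟩
        · exact ⟨unrot c, rfl, hc.2.1, rfl, h2⟩
      · right
        refine ⟨?_, dg S c, by rw [hi]; exact mem_insert_self _ _, ⟨c, rfl, hc.1, rfl, h1⟩⟩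
        rw [CPs, mem_filter, mem_blades]
        refine ⟨⟨hX, c, rfl, hc⟩, c, c, unrot c, rfl, hc, hp, Or.inl ⟨rfl, rfl⟩, h1, ?_, h2⟩
        by_contra h3
        exact h2 (H.outP c c (unrot c) hc hX hp (Or.inl ⟨rfl, rfl⟩) h3 h1)
    · have h2 : S.Face (S.g (unrot c)).1 := (H.s2 c hc hp).resolve_left h1
      right
      refine ⟨?_, dg S (unrot c), by rw [hi]; exact mem_insert_of_mem (mem_singleton_self _),
        ⟨unrot c, rfl, hc.2.1, rfl, h2⟩⟩
      rw [CPs, mem_filter, mem_blades]
      refine ⟨⟨hX, c, rfl, hc⟩, c, unrot c, c, rfl, hc, hp, Or.inr ⟨rfl, rfl⟩, h2, ?_, h1⟩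
      by_contra h3
      exact h1 (H.outP c (unrot c) c hc hX hp (Or.inr ⟨rfl, rfl⟩) h3 h2)
  act_face := by
    intro t ht d hd hs ha
    rw [mem_blades] at ht
    obtain ⟨a, ha1, ha2, rfl, hf⟩ := ha
    refine ⟨(S.g a).1, ?_, ?_⟩
    · rw [mem_faces]
      refine ⟨?_, hf⟩
      by_contra h
      exact hs (mem_Sts.2 ⟨a, ha1 ▸ ht.1, h, ha2, rfl⟩)
    · exact (dg_mem_inc_iff ha2).2 (Or.inr rfl)

end RHyp

end Pool.Agent.Helper29.AG7
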