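import Pool.Agent.Helper29.AG7.ConvFan
import Pool.Agent.Helper29.AG7.RegOf
import Pool.Agent.AG.Fan

/-!
# AG section 7.3: the fan of a pair with no ear gives a zero visit or an unused slot
-/

set_option autoImplicit false
set_option linter.unusedSectionVars false
open Finset

namespace Pool.Agent.Helper29.AG7

open AG AG.Obj

variable {I : Type} [DecidableEq I]

/-- a fan of faces of `K ⊆ X` from the stub `S.cw^[k] c` to the stub `c`; `e i = S.cw^[i] c` -/
structure FanIn (S : Obj I) (X K : Finset I) (c : Sd I) (k : ℕ) : Prop where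
  KX : K ⊆ X
  cK : c.1 ∉ K
  bd : S.bd K = {S.cw^[k] c, S.g c}
  pos : 1 ≤ k
  gl : ∀ i ≤ k, S.g (S.cw^[i] c) ≠ S.cw^[i] c
  inK : ∀ i, 1 ≤ i → i ≤ k → (S.cw^[i] c).1 ∈ K
  face : ∀ i, 1 ≤ i → i ≤ k → S.Face (S.cw^[i] c).1

section
variable {S : Obj I} {pt : Sd I → Pt} {X K : Finset I} {c : Sd I} {k : ℕ}

/-- the side from position `i` to position `i+1` -/
theorem FanIn.succ (F : FanIn S X K c k) {i : ℕ} (hi : i ≤ k) :
    S.cw^[i + 1] c = rot (S.g (S.cw^[i] c)) := by
  rw [Function.iterate_succ_apply', cw, if_neg (F.gl i hi)]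

theorem FanIn.inj (F : FanIn S X K c k) (hl : S.Linear) {i j : ℕ} (hij : i < j) (hj : j ≤ k) :
    S.cw^[i] c ≠ S.cw^[j] c := by
  intro h
  have h1 : S.cw^[j - i] (S.cw^[i] c) = S.cw^[i] c := by
    rw [← Function.iterate_add_apply, Nat.sub_add_cancel hij.le]
    exact h.symm
  exact F.gl i (by omega) (linear_cycle hl (by omega) h1)

theorem FanIn.inj' (F : FanIn S X K c k) (hl : S.Linear) {i j : ℕ} (hi : i ≤ k) (hj : j ≤ k)
    (h : S.cw^[i] c = S.cw^[j] c) : i = j := by
  rcases Nat.lt_trichotomy i j with h1 | h1 | h1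
  · exact absurd h (F.inj hl h1 hj)
  · exact h1
  · exact absurd h.symm (F.inj hl h1 hi)

theorem FanIn.two_le (F : FanIn S X K c k) (hb : S.Bridgeless) (hX : X ⊆ S.F) : 2 ≤ k := by
  have h1 := F.pos
  rcases Nat.lt_or_ge 1 k with h2 | h2
  · exact h2
  · exfalso
    have hk : k = 1 := by omega
    subst hk
    have h0 : S.g c ≠ c := F.gl 0 (by omega)
    have h3 : unrot (S.cw^[1] c) = S.g c := by
      have := F.succ (i := 0) (by omega)
      rw [zero_add] at this
      rw [this, unrot_rot]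
      rfl
    refine face_two_cut hb (F.KX.trans hX) (F.face 1 le_rfl le_rfl) (F.inK 1 le_rfl le_rfl) ?_
    rw [h3]
    exact F.bd

/-- a slot whose diagonal is blocked at a visit with only this blocked diagonal is unused -/
theorem unused_single (H : RHyp S pt X) {t : I} {d : Finset (Sd I)} {w : Sd I} (ht : t ∈ X)
    (hf : S.Face t) (hd : d ∈ inc S t) (hA : Aw S X (S.Blk pt) w = {d}) : (t, d) ∈ H.reg.unused := by
  classical
  have hdA : d ∈ Aw S X (S.Blk pt) w := by rw [hA]; exact mem_singleton_self _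
  have hbl : bl S X (S.Blk pt) d = some w := (mem_filter.1 hdA).2
  have hdD : d ∈ Dgs S X := (mem_filter.1 hdA).1
  rw [Helper41.AG7.Reg.unused, mem_filter, mem_product]
  refine ⟨⟨mem_faces.2 ⟨ht, hf⟩, hdD⟩, hd, ?_⟩
  rintro (h | ⟨w', _, h1, h2, h3⟩ | ⟨t', ht', h1, ⟨w', _, h2, h3⟩, _⟩)
  · have : bl S X (S.Blk pt) d = none := h
    rw [hbl] at this
    exact absurd this (by simp)
  · have h4 : bl S X (S.Blk pt) d = some w' := (mem_filter.1 h3).2
    rw [hbl] at h4
    have h5 : w = w' := Option.some.inj h4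
    have h6 : (Aw S X (S.Blk pt) w').card = 2 := h1
    rw [← h5, hA, card_singleton] at h6
    exact absurd h6 (by norm_num)
  · have h4 : H.reg.A w' = inc S t' := by
      apply eq_of_subset_of_card_le h3
      rw [h2]
      exact (H.reg.inc_blade t' ht').2.le
    have h5 : d ∈ H.reg.A w' := by rw [h4]; exact h1
    have h6 : bl S X (S.Blk pt) d = some w' := (mem_filter.1 h5).2
    rw [hbl] at h6
    have h7 : w = w' := Option.some.inj h6
    have h8 : (Aw S X (S.Blk pt) w').card = 2 := h2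
    rw [← h7, hA, card_singleton] at h8
    exact absurd h8 (by norm_num)

/-- two faces glued along a blocked diagonal: one of the two slots is unused -/
theorem unused_one_of_two (H : RHyp S pt X) {a : Sd I} (ha : S.g a ≠ a) (h1 : a.1 ∈ X)
    (h2 : (S.g a).1 ∈ X) (hf1 : S.Face a.1) (hf2 : S.Face (S.g a).1)
    (hn : bl S X (S.Blk pt) (dg S a) ≠ none) :
    (a.1, dg S a) ∈ H.reg.unused ∨ ((S.g a).1, dg S a) ∈ H.reg.unused := by
  classical
  by_contra hcon
  rw [not_or] at hcon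
  have hdD : dg S a ∈ Dgs S X := mem_Dgs.2 ⟨a, h1, ha, rfl⟩
  have key : ∀ t, t ∈ X → S.Face t → dg S a ∈ inc S t → (t, dg S a) ∉ H.reg.unused →
      ∃ w', (H.reg.A w').card = 2 ∧ H.reg.A w' ⊆ inc S t ∧ bl S X (S.Blk pt) (dg S a) = some w' := by
    intro t ht hf hd hu
    rw [Helper41.AG7.Reg.unused, mem_filter, mem_product] at hu
    have h3 : H.reg.Used t (dg S a) := by
      by_contra h
      exact hu ⟨⟨mem_faces.2 ⟨ht, hf⟩, hdD⟩, hd, h⟩
    rcases h3 with h | ⟨w', _, k1, k2, k3⟩ | ⟨t', ht', k1, _, _⟩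
    · exact absurd h hn
    · exact ⟨w', k1, k2, (mem_filter.1 k3).2⟩
    · exfalso
      obtain ⟨e, he, hbe⟩ := (mem_blades.1 ht').2
      rcases (dg_mem_inc_iff ha).1 k1 with k2 | k2
      · exact blade_not_face hbe (by rw [he, k2]; exact hf1)
      · exact blade_not_face hbe (by rw [he, k2]; exact hf2)
  obtain ⟨w, k1, k2, k3⟩ := key a.1 h1 hf1 (dg_mem_inc ha) hcon.1
  obtain ⟨w', l1, l2, l3⟩ := key (S.g a).1 h2 hf2 ((dg_mem_inc_iff ha).2 (Or.inr rfl)) hcon.2
  rw [k3] at l3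
  have h3 : w = w' := Option.some.inj l3
  rw [← h3] at l2
  have h4 : H.reg.A w ⊆ inc S a.1 ∩ inc S (S.g a).1 := subset_inter k2 l2
  have h5 := card_le_card h4
  have h6 := share H.sh (Ne.symm (S.ne a ha) : a.1 ≠ (S.g a).1)
  rw [k1] at h5
  have h7 : (inc S a.1 ∩ inc S (S.g a).1).card ≤ 1 := by convert h6
  omega

/-- 7.3, all inner diagonals of the fan are U: the visit of the fan is a zero, or only one of the two stubs is blocked there;
in all cases the sector is wide -/
theorem fan_all_U {R : Set Pt} (H : RHyp S pt X) (hC : Cex S pt R) (F : FanIn S X K c k)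
    (hU : ∀ i, 1 ≤ i → i < k → S.IsU pt (S.cw^[i] c)) :
    Real.pi ≤ ∑ i ∈ range k, cang pt (S.cw^[i + 1] c) ∧
    (Aw S X (S.Blk pt) (vz S X (S.cw c)) = ∅ ∨ Aw S X (S.Blk pt) (vz S X (S.cw c)) = {dg S c} ∨
      Aw S X (S.Blk pt) (vz S X (S.cw c)) = {dg S (S.cw^[k] c)}) := by
  classical
  have hG := hC.geo
  have hl := H.lin
  have hk2 := F.two_le hC.bridgeless H.sub
  have hwide : Real.pi ≤ ∑ i ∈ range k, cang pt (S.cw^[i + 1] c) := by
    by_contra hlt
    rw [not_le] at hlt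
    obtain ⟨m, rfl⟩ : ∃ m, k = m + 1 := ⟨k - 1, by omega⟩
    exact no_convex_fan m S pt hC K c (F.KX.trans H.sub) F.cK F.bd F.gl
      (fun i h1 h2 => ⟨F.inK i h1 h2, F.face i h1 h2⟩)
      (fun i h1 h2 => (AG.Geo.isU_iff.1 (hU i h1 (by omega))).2.2) hlt
  refine ⟨hwide, ?_⟩
  have hg0 : S.g c ≠ c := F.gl 0 (by omega)
  have h1X : (S.cw c).1 ∈ X := F.KX (F.inK 1 le_rfl F.pos)
  have hptw : pt (vz S X (S.cw c)) = pt c := by
    have h1 : S.g (S.cw c) ≠ S.cw c := F.gl 1 F.pos
    rw [← hG.pt_eq (vz_eqv (X := X) h1), ← hG.pt_eq (S.cw_eqv c)]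
  have hpt : ∀ i, pt (S.cw^[i] c) = pt c := fun i => (hG.pt_eq (cw_iter_eqv S i c)).symm
  have hF : ∀ i ≤ k, (S.cw^[i] c).1 ∈ S.F := fun i hi => S.memF _ (F.gl i hi)
  -- a side blocked at the point of the fan is one of the two stubs
  have key : ∀ a, S.Blk pt a → pt a = pt c → a = c ∨ a = S.cw^[k] c := by
    intro a ha hpa
    by_contra hcon
    rw [not_or] at hcon
    have hne : ∀ i ≤ k, a ≠ S.cw^[i] c := by
      intro i hi h
      rcases Nat.eq_zero_or_pos i with h1 | h1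
      · rw [h1] at h; exact hcon.1 h
      · rcases Nat.lt_or_ge i k with h2 | h2
        · exact (AG.Geo.isU_iff.1 (hU i h1 h2)).2.1 (h ▸ ha)
        · have : i = k := by omega
          rw [this] at h
          exact hcon.2 h
    have hne2 : ∀ i, 1 ≤ i → i ≤ k → S.cw a ≠ S.cw^[i] c := by
      intro i h1 h2 h
      obtain ⟨j, rfl⟩ : ∃ j, i = j + 1 := ⟨i - 1, by omega⟩
      rw [Function.iterate_succ_apply'] at h
      exact hne j (by omega) (cw_inj ha.1 (F.gl j (by omega)) h)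
    have haw : a ≠ S.cw a := by
      rw [cw, if_neg ha.1]
      intro h
      exact S.ne a ha.1 (by rw [← rot_fst (S.g a), ← h])
    let Y : Finset (Sd I) := (range k).image (fun i => S.cw^[i + 1] c)
    have hY : ∑ x ∈ Y, cang pt x = ∑ i ∈ range k, cang pt (S.cw^[i + 1] c) := by
      apply sum_image
      intro i hi j hj hij
      have hi' := mem_range.1 (mem_coe.1 hi)
      have hj' := mem_range.1 (mem_coe.1 hj)
      have := F.inj' hl (i := i + 1) (j := j + 1) (by omega) (by omega) hij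
      omega
    have haY : a ∉ Y := by
      intro h
      obtain ⟨i, hi, hi'⟩ := mem_image.1 h
      rw [mem_range] at hi
      exact hne (i + 1) (by omega) hi'.symm
    have hawY : S.cw a ∉ Y := by
      intro h
      obtain ⟨i, hi, hi'⟩ := mem_image.1 h
      rw [mem_range] at hi
      exact hne2 (i + 1) (by omega) (by omega) hi'.symm
    have h1 := hG.sum_lt (X := insert a (insert (S.cw a) Y)) (p := pt c) (by
      intro x hx
      rw [mem_insert, mem_insert] at hx
      rcases hx with rfl | rfl | hx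
      · exact S.memF _ ha.1
      · rw [cw, if_neg ha.1, rot_fst]; exact g_memF ha.1
      · obtain ⟨i, hi, rfl⟩ := mem_image.1 hx
        rw [mem_range] at hi
        exact hF (i + 1) (by omega)) (by
      intro x hx
      rw [mem_insert, mem_insert] at hx
      rcases hx with rfl | rfl | hx
      · exact hpa
      · rw [← hG.pt_eq (S.cw_eqv a)]; exact hpa
      · obtain ⟨i, hi, rfl⟩ := mem_image.1 hx
        exact hpt (i + 1))
    rw [sum_insert (by rw [mem_insert, not_or]; exact ⟨haw, haY⟩), sum_insert hawY, hY] at h1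
    have h2 := ha.2
    have h3 : S.cw a = rot (S.g a) := by rw [cw, if_neg ha.1]
    rw [h3] at h1
    linarith
  have hsub : ∀ d ∈ Aw S X (S.Blk pt) (vz S X (S.cw c)),
      (S.Blk pt c ∧ d = dg S c) ∨ (S.Blk pt (S.cw^[k] c) ∧ d = dg S (S.cw^[k] c)) := by
    intro d hd
    obtain ⟨a, _, rfl, hb, hv⟩ := (mem_Aw (fun a ha => ha.1) H.b1).1 hd
    have h1 : pt a = pt c := by
      rw [hG.pt_eq (vz_eqv (X := X) hb.1), hv, hptw]
    rcases key a hb h1 with h2 | h2
    · left; rw [h2] at hb; exact ⟨hb, by rw [h2]⟩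
    · right; rw [h2] at hb; exact ⟨hb, by rw [h2]⟩
  have hnot : ¬ (S.Blk pt c ∧ S.Blk pt (S.cw^[k] c)) := by
    rintro ⟨h1, h2⟩
    rcases H.g1 c (S.cw^[k] c) h1 h2 (cw_iter_eqv S k c) with h3 | h3 | h3
    · exact F.inj hl (i := 0) (j := k) (by omega) le_rfl h3
    · have h4 : S.cw^[k] c = S.cw^[1] c := h3
      exact absurd (F.inj' hl le_rfl (by omega) h4) (by omega)
    · have h4 : S.cw^[k + 1] c = c := by rw [Function.iterate_succ_apply']; exact h3.symm
      exact hg0 (linear_cycle hl (by omega) h4)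
  by_cases h1 : S.Blk pt c
  · have h2 : ¬ S.Blk pt (S.cw^[k] c) := fun h => hnot ⟨h1, h⟩
    have h3 : Aw S X (S.Blk pt) (vz S X (S.cw c)) ⊆ {dg S c} := by
      intro d hd
      rcases hsub d hd with h4 | h4
      · rw [h4.2]; exact mem_singleton_self _
      · exact absurd h4.1 h2
    rcases subset_singleton_iff.1 h3 with h4 | h4
    · exact Or.inl h4
    · exact Or.inr (Or.inl h4)
  · have h3 : Aw S X (S.Blk pt) (vz S X (S.cw c)) ⊆ {dg S (S.cw^[k] c)} := by
      intro d hd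
      rcases hsub d hd with h4 | h4
      · exact absurd h4.1 h1
      · rw [h4.2]; exact mem_singleton_self _
    rcases subset_singleton_iff.1 h3 with h4 | h4
    · exact Or.inl h4
    · exact Or.inr (Or.inr h4)

/-- 7.3 -/
theorem fan_bill {R : Set Pt} (H : RHyp S pt X) (hC : Cex S pt R) (F : FanIn S X K c k) :
    2 ≤ k ∧
    ((∃ i, 1 ≤ i ∧ i < k ∧ bl S X (S.Blk pt) (dg S (S.cw^[i] c)) ≠ none ∧
        (((S.cw^[i] c).1, dg S (S.cw^[i] c)) ∈ H.reg.unused ∨
          ((S.cw^[i + 1] c).1, dg S (S.cw^[i] c)) ∈ H.reg.unused)) ∨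
      (Real.pi ≤ ∑ i ∈ range k, cang pt (S.cw^[i + 1] c) ∧
        (∀ i, 1 ≤ i → i < k → S.IsU pt (S.cw^[i] c)) ∧
        (vz S X (S.cw c) ∈ H.reg.zeros ∨
          (Aw S X (S.Blk pt) (vz S X (S.cw c)) = {dg S c} ∧
            ((S.cw c).1, dg S c) ∈ H.reg.unused) ∨
          (Aw S X (S.Blk pt) (vz S X (S.cw c)) = {dg S (S.cw^[k] c)} ∧
            ((S.cw^[k] c).1, dg S (S.cw^[k] c)) ∈ H.reg.unused)))) := by
  classical
  have hk2 := F.two_le hC.bridgeless H.sub
  refine ⟨hk2, ?_⟩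
  by_cases hU : ∀ i, 1 ≤ i → i < k → S.IsU pt (S.cw^[i] c)
  · right
    obtain ⟨h1, h2⟩ := fan_all_U H hC F hU
    refine ⟨h1, hU, ?_⟩
    have h1X : (S.cw c).1 ∈ X := F.KX (F.inK 1 le_rfl F.pos)
    rcases h2 with h2 | h2 | h2
    · left
      rw [Helper41.AG7.Reg.zeros, mem_filter]
      refine ⟨vz_mem H.lin H.sub (Or.inl h1X), ?_⟩
      have : (Aw S X (S.Blk pt) (vz S X (S.cw c))).card = 0 := by rw [h2, card_empty]
      exact this
    · right; left
      refine ⟨h2, unused_single H h1X (F.face 1 le_rfl F.pos) ?_ h2⟩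
      have h0 : S.g c ≠ c := F.gl 0 (by omega)
      refine (dg_mem_inc_iff h0).2 (Or.inr ?_)
      rw [cw, if_neg h0, rot_fst]
    · right; right
      refine ⟨h2, unused_single H (F.KX (F.inK k F.pos le_rfl)) (F.face k F.pos le_rfl) ?_ h2⟩
      exact dg_mem_inc (F.gl k le_rfl)
  · left
    push Not at hU
    obtain ⟨i, h1, h2, h3⟩ := hU
    have hg := F.gl i (by omega)
    have hs := F.succ (i := i) (by omega)
    have h4 : (S.cw^[i + 1] c).1 = (S.g (S.cw^[i] c)).1 := by rw [hs, rot_fst]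
    have h5 : bl S X (S.Blk pt) (dg S (S.cw^[i] c)) ≠ none := by
      intro h
      rw [bl_none] at h
      exact h3 (AG.Geo.isU_iff.2 ⟨hg, h.1, h.2⟩)
    refine ⟨i, h1, h2, h5, ?_⟩
    rw [h4]
    exact unused_one_of_two H hg (F.KX (F.inK i h1 (by omega)))
      (by rw [← h4]; exact F.KX (F.inK (i + 1) (by omega) (by omega))) (F.face i h1 (by omega))
      (by rw [← h4]; exact F.face (i + 1) (by omega) (by omega)) h5

end

end Pool.Agent.Helper29.AG7
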