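import Pool.Agent.Helper29.AG7.Walk
import Pool.Agent.Helper29.AG7.RegOf
import Pool.Agent.Helper41.AG7.Open
import Pool.Agent.AG.Reg.Blade

/-!
# AG section 7.4: the bills (b) of the ear ends

`X` = region, `c` = apex corner of an eared triangle, `n 0, n 1, …` = corners of the visit of an end of the ear, beginning
with the corner of the eared triangle.
-/

set_option autoImplicit false
set_option linter.unusedSectionVars false
open Finset

namespace Pool.Agent.Helper29.AG7

open AG AG.Obj

variable {I : Type} [DecidableEq I] {S : Obj I} {pt : Sd I → Pt} {X : Finset I}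

/-- neighbouring corners in the region are in one visit of the region -/
theorem last_nb (hl : S.Linear) {x y : Sd I} (h : Nb S x y) (hx : x.1 ∈ X) (hy : y.1 ∈ X) :
    (S.keep X).last x = (S.keep X).last y := by
  have key : ∀ x y : Sd I, S.Step x y → x.1 ∈ X → y.1 ∈ X →
      (S.keep X).last x = (S.keep X).last y := by
    intro x y h hx hy
    have h2 : (S.g x).1 ∈ X := by
      have := hy
      rw [h.2, rot_fst] at this
      exact this
    have h3 : (S.keep X).g x = S.g x := by rw [keep_g, if_pos ⟨hx, h2⟩]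
    have h4 : (S.keep X).cw x = y := by
      rw [cw, h3, if_neg h.1, h.2]
    rw [← h4, last_cw (keep_linear hl X)]
  rcases h with h | h
  · exact key x y h hx hy
  · exact (key y x h hy hx).symm

theorem Walk.last_eq (hl : S.Linear) {n : ℕ → Sd I} {m : ℕ} (W : Walk S n m) {j : ℕ} (hj : j ≤ m)
    (hin : ∀ i ≤ j, (n i).1 ∈ X) : (S.keep X).last (n 0) = (S.keep X).last (n j) := by
  induction j with
  | zero => rfl
  | succ j ih =>
    rw [ih (by omega) (fun i hi => hin i (by omega))]
    exact last_nb hl (W.nb j (by omega)) (hin j (by omega)) (hin (j + 1) le_rfl)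

/-- a side blocked at the visit of the walk -/
theorem Walk.of_blk {n : ℕ → Sd I} {m : ℕ} (W : Walk S n m) {a : Sd I} (hb : S.Blk pt a)
    (he : S.Eqv (n 0) a) : ∃ i < m, Bk S pt (n i) (n (i + 1)) ∧
      ((a = n i ∧ S.cw a = n (i + 1)) ∨ (a = n (i + 1) ∧ S.cw a = n i)) := by
  have hs : S.Step a (S.cw a) := step_iff_cw.2 ⟨hb.1, rfl⟩
  obtain ⟨i, hi, h1⟩ := W.all a he
  obtain ⟨k, hk, h2⟩ := W.all (S.cw a) (he.trans (S.cw_eqv a))
  have hnb : Nb S (n i) (n k) := by rw [← h1, ← h2]; exact Or.inl hs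
  rcases W.adj i k hi hk hnb with h3 | h3
  · subst h3
    refine ⟨i, by omega, ?_, Or.inl ⟨h1, h2⟩⟩
    rw [← h1, ← h2]
    exact Or.inl ⟨hs, hb⟩
  · subst h3
    refine ⟨k, by omega, ?_, Or.inr ⟨h1, h2⟩⟩
    rw [← h1, ← h2]
    exact Or.inr ⟨hs, hb⟩

theorem not_step_both (hl : S.Linear) {x y : Sd I} (h : S.Step x y) (h' : S.Step y x) : False := by
  rw [step_iff_cw] at h h'
  have h1 := ps_of_glued hl h.1
  have h2 := ps_of_glued hl h'.1
  rw [← h.2] at h1
  rw [← h'.2] at h2
  omega

/-- two corners of an ear end: the corner of the walk after the first one is not a corner of an eared triangle at its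
ear -/
theorem ear_corner (hB : Base S pt) {c c' z x : Sd I} (hc : S.Eared c) (hc' : S.Eared c')
    (hz : z = rot c ∨ z = unrot c) (hx : x = rot c' ∨ x = unrot c') (he : S.Eqv z x) : z = x := by
  have hl := hB.lin
  have u1 := S.earFree _ hc.2.2
  have u2 := S.earFree _ hc'.2.2
  rcases hz with rfl | rfl <;> rcases hx with rfl | rfl
  · have := (eqv_iff hl).1 he
    rwa [last_of_unglued u1, last_of_unglued u2] at this
  · exfalso
    have := hB.ear_se (rot c) hc.2.2 (rot c') hc'.2.2
    rw [rot_rot] at this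
    exact this he
  · exfalso
    have := hB.ear_se (rot c') hc'.2.2 (rot c) hc.2.2
    rw [rot_rot] at this
    exact this he.symm
  · rcases Nat.lt_trichotomy (S.ps (unrot c)) (S.ps (unrot c')) with h1 | h1 | h1
    · have := unrot_glued_of_lt hl he h1
      rw [unrot_unrot] at this
      exact absurd u1 this
    · exact ps_inj hl he h1
    · have := unrot_glued_of_lt hl he.symm h1
      rw [unrot_unrot] at this
      exact absurd u2 this

theorem earEnd_of (hc : Sd I) (h : S.Eared hc) {z : Sd I} (hz : z = rot hc ∨ z = unrot hc) :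
    S.EarEnd z := by
  refine ⟨rot hc, h.2.2, ?_⟩
  rcases hz with rfl | rfl
  · exact Or.inl (Eqv.refl _ _)
  · right; rw [rot_rot]; exact Eqv.refl _ _

/-- MAIN LEMMA of 7.4 -/
theorem ear_slot (H : RHyp S pt X) (hB : Base S pt) {n : ℕ → Sd I} {m : ℕ} (W : Walk S n m)
    {tau : Finset I} (hsub : tau ⊆ X) {c : Sd I} (hc : S.Eared c) (h0 : c.1 ∈ tau)
    (hz : n 0 = rot c ∨ n 0 = unrot c)
    (hcr : ∀ x y, S.Eqv (n 0) x → Nb S x y → x.1 ∈ tau → y.1 ∉ tau →
      D1 S x y ∨ D2 S pt x y ∨ D1 S y x ∨ D2 S pt y x)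
    (hu : ∀ c', S.Eared c' → c'.1 ∈ tau → c' = c)
    (hk0 : 0 < m → ¬ Bk S pt (n 0) (n 1)) :
    (S.keep X).last (n 0) ∈ H.reg.zeros ∨
      ∃ y ∈ H.reg.unused, y.1 ∈ tau ∧ H.reg.bl y.2 = some ((S.keep X).last (n 0)) := by
  classical
  have hl := hB.lin
  have hz1 : (n 0).1 = c.1 := by rcases hz with h | h <;> rw [h] <;> rfl
  have hn0 : (n 0).1 ∈ tau := by rw [hz1]; exact h0
  have hend : S.EarEnd (n 0) := earEnd_of c hc hz
  have hnob : ∀ w, S.BladeAt pt w → ¬ S.Eqv (n 0) w := fun w hw he => hB.earEnd _ w hend hw he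
  by_cases hex : ∃ i, i < m ∧ Bk S pt (n i) (n (i + 1))
  · right
    obtain ⟨hj, hbk⟩ := Nat.find_spec hex
    have hmin : ∀ i, i < Nat.find hex → ¬ Bk S pt (n i) (n (i + 1)) := fun i hi h =>
      Nat.find_min hex hi ⟨by omega, h⟩
    generalize Nat.find hex = j at hj hbk hmin
    have hjpos : 0 < j := by
      rcases Nat.eq_zero_or_pos j with h | h
      · subst h
        exact absurd hbk (hk0 hj)
      · exact h
    have hmem : ∀ i ≤ j, (n i).1 ∈ tau :=
      W.mem hn0 (by rw [hz1]; exact eared_not_face hc)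
        (fun u hu' => by rw [hz1]; exact blade_not_eared hu' hc) hcr hj hbk
    have hX : ∀ i ≤ j, (n i).1 ∈ X := fun i hi => hsub (hmem i hi)
    have hlast := W.last_eq (X := X) hl hj.le hX
    have hej : S.Eqv (n 0) (n j) := W.eqv j hj.le
    -- `n j` is a face
    have hface : S.Face (n j).1 := by
      rcases H.three _ (H.sub (hX j le_rfl)) with h | ⟨u, hu1, hu2⟩ | ⟨u, hu1, hu2⟩
      · exact h
      · exfalso
        have hprev : Nb S (n j) (n (j - 1)) := by
          have := W.nb (j - 1) (by omega)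
          rw [Nat.sub_add_cancel hjpos] at this
          exact this.symm
        have hnext : Nb S (n j) (n (j + 1)) := W.nb j hj
        have hdiff : n (j - 1) ≠ n (j + 1) := fun h => by
          have := W.inj (j - 1) (j + 1) (by omega) (by omega) h
          omega
        rcases eq_of_fst_eq hu1.symm with h | h | h
        · exact hnob u (Blade.bladeAt hu2) (by rw [← h]; exact hej)
        · have hd := (D1_rot hu2).2
          rw [← h] at hd
          exact hdiff ((hd _ hprev).trans (hd _ hnext).symm)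
        · have hd := (D1_unrot hu2).2
          rw [← h] at hd
          exact hdiff ((hd _ hprev).trans (hd _ hnext).symm)
      · exfalso
        have hu3 : u.1 ∈ tau := by rw [hu1]; exact hmem j le_rfl
        have hu4 : u = c := hu u hu2 hu3
        have hF : (n j).1 ∈ S.F := H.sub (hX j le_rfl)
        have h5 : n j = n 0 := hB.tri (n j) (n 0) hF (by rw [hz1, ← hu1, hu4]) hej.symm
        have := W.inj j 0 hj.le (by omega) h5
        omega
    -- the blocked side
    obtain ⟨a, hba, haj⟩ : ∃ a, S.Blk pt a ∧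
        ((a = n j ∧ S.cw a = n (j + 1)) ∨ (a = n (j + 1) ∧ S.cw a = n j)) := by
      rcases hbk with ⟨h1, h2⟩ | ⟨h1, h2⟩
      · exact ⟨n j, h2, Or.inl ⟨rfl, (step_iff_cw.1 h1).2.symm⟩⟩
      · exact ⟨n (j + 1), h2, Or.inr ⟨rfl, (step_iff_cw.1 h1).2.symm⟩⟩
    have hinc : dg S a ∈ inc S (n j).1 := by
      rw [dg_mem_inc_iff hba.1]
      rcases haj with ⟨h1, _⟩ | ⟨_, h1⟩
      · left; rw [h1]
      · right; rw [← h1, cw_of_glued hba.1, rot_fst]
    have hvz : vz S X a = (S.keep X).last (n 0) := by
      rw [hlast]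
      rcases haj with ⟨h1, _⟩ | ⟨h1, h2⟩
      · rw [vz, if_pos (by rw [h1]; exact hX j le_rfl), h1]
      · by_cases h3 : a.1 ∈ X
        · rw [vz, if_pos h3, h1]
          rw [h1] at h3
          exact last_nb hl (W.nb j hj).symm h3 (hX j le_rfl)
        · rw [vz, if_neg h3, ← h2, cw_of_glued hba.1]
    have hbl : H.reg.bl (dg S a) = some ((S.keep X).last (n 0)) := by
      rw [← hvz]
      exact bl_of_blk H.b1 hba
    refine ⟨((n j).1, dg S a), ?_, hmem j le_rfl, hbl⟩
    apply H.reg.unused_of (mem_faces.2 ⟨hX j le_rfl, hface⟩) hinc hbl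
    · -- other diagonals of the face at this visit
      intro d' hd' hd2
      obtain ⟨a', ha1, rfl, ha3, ha4⟩ := (Helper41.AG7.mem_A' H).1 hd'
      have he' : S.Eqv (n 0) a' := by
        have h1 : S.Eqv a' (vz S X a') := vz_eqv ha3.1
        have h2 : S.Eqv (n 0) ((S.keep X).last (n 0)) :=
          (last_eqv (S.keep X) (n 0)).mono (keep_le S X)
        rw [ha4] at h1
        exact h2.trans h1.symm
      obtain ⟨i, hi, hbi, hai⟩ := W.of_blk ha3 he'
      have hF : (n j).1 ∈ S.F := H.sub (hX j le_rfl)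
      have hij : i = j ∨ i + 1 = j := by
        rcases (dg_mem_inc_iff ha3.1).1 hd2 with h | h
        · have h1 : n j = a' := hB.tri (n j) a' hF h.symm (hej.symm.trans he')
          rcases hai with ⟨h2, _⟩ | ⟨h2, _⟩
          · left; exact W.inj i j (by omega) hj.le (by rw [← h2, h1])
          · right; exact W.inj (i + 1) j (by omega) hj.le (by rw [← h2, h1])
        · have h1 : n j = S.cw a' := by
            apply hB.tri (n j) (S.cw a') hF
            · rw [cw_fst ha3.1, ← h]
            · exact (hej.symm.trans he').trans (S.cw_eqv a')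
          rcases hai with ⟨_, h2⟩ | ⟨_, h2⟩
          · right; exact W.inj (i + 1) j (by omega) hj.le (by rw [← h2, h1])
          · left; exact W.inj i j (by omega) hj.le (by rw [← h2, h1])
      rcases hij with h | h
      · subst h
        congr 1
        rcases haj with ⟨h1, h2⟩ | ⟨h1, h2⟩ <;> rcases hai with ⟨h3, h4⟩ | ⟨h3, h4⟩
        · rw [h1, h3]
        · exfalso
          refine not_step_both hl (x := n i) (y := n (i + 1)) ?_ ?_
          · rw [← h1, ← h2]; exact step_iff_cw.2 ⟨hba.1, rfl⟩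
          · rw [← h3, ← h4]; exact step_iff_cw.2 ⟨ha3.1, rfl⟩
        · exfalso
          refine not_step_both hl (x := n i) (y := n (i + 1)) ?_ ?_
          · rw [← h3, ← h4]; exact step_iff_cw.2 ⟨ha3.1, rfl⟩
          · rw [← h1, ← h2]; exact step_iff_cw.2 ⟨hba.1, rfl⟩
        · rw [h1, h3]
      · exact absurd hbi (hmin i (by omega))
    · -- no blade hosts a pair at this visit
      intro t ht hA _
      obtain ⟨_, u, rfl, hu2⟩ := mem_blades.1 ht
      have hA' : Aw S X (S.Blk pt) ((S.keep X).last (n 0)) = inc S u.1 := hA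
      have hp := H.pair_of hu2 rfl hA'
      have h1 : dg S u ∈ Aw S X (S.Blk pt) ((S.keep X).last (n 0)) := by
        rw [hA']; exact dg_mem_inc hu2.1
      have h2 := (mem_filter.1 h1).2
      rw [bl_of_blk H.b1 hp.1] at h2
      have h3 : vz S X u = (S.keep X).last (n 0) := Option.some.inj h2
      have h4 : S.Eqv u (vz S X u) := vz_eqv hu2.1
      have h5 : S.Eqv (n 0) ((S.keep X).last (n 0)) :=
        (last_eqv (S.keep X) (n 0)).mono (keep_le S X)
      rw [h3] at h4
      exact hnob u (Blade.bladeAt hu2) (h5.trans h4.symm)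
  · left
    rw [Helper41.AG7.mem_zeros]
    constructor
    · apply last_mem_vis (keep_linear hl X)
      rw [mem_sides, keep_F S H.sub]
      exact hsub hn0
    · intro a ha hba hv
      have h1 : S.Eqv a (vz S X a) := vz_eqv hba.1
      have h2 : S.Eqv (n 0) ((S.keep X).last (n 0)) :=
        (last_eqv (S.keep X) (n 0)).mono (keep_le S X)
      rw [hv] at h1
      obtain ⟨i, hi, hbi, _⟩ := W.of_blk hba (h2.trans h1.symm)
      exact hex ⟨i, hi, hbi⟩

end Pool.Agent.Helper29.AG7
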