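import Pool.Agent.AG.Basic
import Pool.Agent.Helper41.AG7.Count

/-!
# AG section 7: dictionary between `Obj I` and the abstract record `Reg` of `Helper41/AG7/Count.lean`

`X ⊆ S.F` is the set of triangles of the region (`X = R`, or `X = S.F` in the closed case).
* a DIAGONAL is the unordered pair `dg S a = {a, S.g a}` of glued sides;
* `inc S t` = diagonals of the triangle `t`, `Dgs S X` = inner diagonals and stubs of `X`, `Sts S X` = stubs;
* a VISIT of the region is its last corner (clockwise) in `S.keep X`, `vz S X a` = the visit of the region at the start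
  of the side `a` (`a` or `S.g a` is a side of a triangle of `X`);
* `blk a` : the diagonal of the glued side `a` is blocked at the start of `a`;
* `bl` : blocked end of a diagonal as a visit of the region.
-/

set_option autoImplicit false
open Finset

namespace Pool.Agent.Helper29.AG7

open AG AG.Obj

variable {I : Type} [DecidableEq I]

/-- the diagonal of the glued side `a` -/
def dg (S : Obj I) (a : Sd I) : Finset (Sd I) := {a, S.g a}

theorem mem_dg {S : Obj I} {a b : Sd I} : b ∈ dg S a ↔ b = a ∨ b = S.g a := by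
  simp [dg]

theorem dg_g (S : Obj I) (a : Sd I) : dg S (S.g a) = dg S a := by
  rw [dg, dg, S.invol, pair_comm]

theorem dg_eq_iff {S : Obj I} {a b : Sd I} : dg S a = dg S b ↔ b = a ∨ b = S.g a := by
  constructor
  · intro h
    rw [← mem_dg, h]
    exact mem_dg.2 (Or.inl rfl)
  · rintro (h | h)
    · rw [h]
    · rw [h, dg_g]

/-- the glued sides of the triangle `t` -/
def gs (S : Obj I) (t : I) : Finset (Sd I) :=
  ((univ : Finset (Fin 3)).filter (fun i => S.g (t, i) ≠ (t, i))).image (fun i => (t, i))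

theorem mem_gs {S : Obj I} {t : I} {a : Sd I} : a ∈ gs S t ↔ a.1 = t ∧ S.g a ≠ a := by
  simp only [gs, mem_image, mem_filter, mem_univ, true_and]
  constructor
  · rintro ⟨i, h, rfl⟩
    exact ⟨rfl, h⟩
  · rintro ⟨rfl, h⟩
    exact ⟨a.2, h, rfl⟩

/-- the diagonals of the triangle `t` -/
def inc (S : Obj I) (t : I) : Finset (Finset (Sd I)) := (gs S t).image (dg S)

theorem mem_inc {S : Obj I} {t : I} {d : Finset (Sd I)} :
    d ∈ inc S t ↔ ∃ a, a.1 = t ∧ S.g a ≠ a ∧ d = dg S a := by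
  simp only [inc, mem_image, mem_gs]
  constructor
  · rintro ⟨a, ⟨h1, h2⟩, rfl⟩
    exact ⟨a, h1, h2, rfl⟩
  · rintro ⟨a, h1, h2, rfl⟩
    exact ⟨a, ⟨h1, h2⟩, rfl⟩

theorem dg_mem_inc {S : Obj I} {a : Sd I} (h : S.g a ≠ a) : dg S a ∈ inc S a.1 :=
  mem_inc.2 ⟨a, rfl, h, rfl⟩

theorem dg_mem_inc_iff {S : Obj I} {a : Sd I} (h : S.g a ≠ a) {t : I} :
    dg S a ∈ inc S t ↔ t = a.1 ∨ t = (S.g a).1 := by
  rw [mem_inc]
  constructor
  · rintro ⟨b, rfl, _, hb⟩
    rcases dg_eq_iff.1 hb with h1 | h1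
    · exact Or.inl (by rw [h1])
    · exact Or.inr (by rw [h1])
  · rintro (h1 | h1)
    · exact ⟨a, h1.symm, h, rfl⟩
    · exact ⟨S.g a, h1.symm, g_ne_iff.2 h, (dg_g S a).symm⟩

theorem card_inc (S : Obj I) (t : I) : (inc S t).card = (gs S t).card := by
  rw [inc, card_image_of_injOn]
  intro a ha b hb hab
  rw [mem_coe, mem_gs] at ha hb
  rcases dg_eq_iff.1 hab with h | h
  · exact h.symm
  · exact absurd ((congrArg Prod.fst h).symm.trans (hb.1.trans ha.1.symm)) (S.ne a ha.2)

/-- inner diagonals and stubs of `X` -/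
def Dgs (S : Obj I) (X : Finset I) : Finset (Finset (Sd I)) := X.biUnion (inc S)

theorem mem_Dgs {S : Obj I} {X : Finset I} {d : Finset (Sd I)} :
    d ∈ Dgs S X ↔ ∃ a, a.1 ∈ X ∧ S.g a ≠ a ∧ d = dg S a := by
  simp only [Dgs, mem_biUnion, mem_inc]
  constructor
  · rintro ⟨t, ht, a, rfl, h2, rfl⟩
    exact ⟨a, ht, h2, rfl⟩
  · rintro ⟨a, h1, h2, rfl⟩
    exact ⟨a.1, h1, a, rfl, h2, rfl⟩

/-- stubs of `X` -/
def Sts (S : Obj I) (X : Finset I) : Finset (Finset (Sd I)) := (S.bd X).image (dg S)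

theorem mem_Sts {S : Obj I} {X : Finset I} {d : Finset (Sd I)} :
    d ∈ Sts S X ↔ ∃ a, a.1 ∈ X ∧ (S.g a).1 ∉ X ∧ S.g a ≠ a ∧ d = dg S a := by
  simp only [Sts, mem_image, mem_bd]
  constructor
  · rintro ⟨a, ⟨h1, h2, h3⟩, rfl⟩
    exact ⟨a, h2, h3, h1, rfl⟩
  · rintro ⟨a, h1, h2, h3, rfl⟩
    exact ⟨a, ⟨h3, h1, h2⟩, rfl⟩

theorem Sts_sub (S : Obj I) (X : Finset I) : Sts S X ⊆ Dgs S X := by
  intro d hd
  obtain ⟨a, h1, _, h3, h4⟩ := mem_Sts.1 hd
  exact mem_Dgs.2 ⟨a, h1, h3, h4⟩

theorem card_Sts (S : Obj I) (X : Finset I) : (Sts S X).card = (S.bd X).card := by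
  rw [Sts, card_image_of_injOn]
  intro a ha b hb hab
  rw [mem_coe, mem_bd] at ha hb
  rcases dg_eq_iff.1 hab with h | h
  · exact h.symm
  · exact absurd (h ▸ hb.2.1) ha.2.2

theorem inc_sub {S : Obj I} {X : Finset I} {t : I} (ht : t ∈ X) : inc S t ⊆ Dgs S X :=
  subset_biUnion_of_mem (inc S) ht

/-- an inner diagonal is a side of two triangles of `X` -/
theorem inner_two {S : Obj I} {X : Finset I} {d : Finset (Sd I)} (hd : d ∈ Dgs S X)
    (hs : d ∉ Sts S X) : (X.filter (fun t => d ∈ inc S t)).card = 2 := by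
  obtain ⟨a, h1, h2, rfl⟩ := mem_Dgs.1 hd
  have h3 : (S.g a).1 ∈ X := by
    by_contra h
    exact hs (mem_Sts.2 ⟨a, h1, h, h2, rfl⟩)
  have : X.filter (fun t => dg S a ∈ inc S t) = {a.1, (S.g a).1} := by
    ext t
    rw [mem_filter, dg_mem_inc_iff h2, mem_insert, mem_singleton]
    constructor
    · exact fun h => h.2
    · rintro (h | h)
      · exact ⟨h ▸ h1, Or.inl h⟩
      · exact ⟨h ▸ h3, Or.inr h⟩
  rw [this, card_pair (Ne.symm (S.ne a h2))]

/-- a stub is a side of exactly one triangle of `X` -/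
theorem stub_one {S : Obj I} {X : Finset I} {d : Finset (Sd I)} (hs : d ∈ Sts S X) :
    (X.filter (fun t => d ∈ inc S t)).card = 1 := by
  obtain ⟨a, h1, h2, h3, rfl⟩ := mem_Sts.1 hs
  have : X.filter (fun t => dg S a ∈ inc S t) = {a.1} := by
    ext t
    rw [mem_filter, dg_mem_inc_iff h3, mem_singleton]
    constructor
    · rintro ⟨h, h' | h'⟩
      · exact h'
      · exact absurd (h' ▸ h) h2
    · intro h
      exact ⟨h ▸ h1, Or.inl h⟩
  rw [this, card_singleton]

/-- number of glued sides of the triangles of `X` -/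
theorem sum_card_inc (S : Obj I) (X : Finset I) :
    ∑ t ∈ X, (inc S t).card + (Sts S X).card = 2 * (Dgs S X).card := by
  classical
  have h1 : ∑ t ∈ X, (inc S t).card = ∑ d ∈ Dgs S X, (X.filter (fun t => d ∈ inc S t)).card := by
    have h2 : ∀ t ∈ X, (inc S t).card = ∑ d ∈ Dgs S X, if d ∈ inc S t then 1 else 0 := by
      intro t ht
      rw [← card_filter]
      congr 1
      ext d
      rw [mem_filter]
      exact ⟨fun h => ⟨inc_sub ht h, h⟩, fun h => h.2⟩
    rw [sum_congr rfl h2, sum_comm]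
    refine sum_congr rfl (fun d _ => ?_)
    rw [card_filter]
  have h3 : (Sts S X).card = ∑ d ∈ Dgs S X, if d ∈ Sts S X then 1 else 0 := by
    rw [← card_filter]
    congr 1
    ext d
    rw [mem_filter]
    exact ⟨fun h => ⟨Sts_sub S X h, h⟩, fun h => h.2⟩
  rw [h1, h3, ← sum_add_distrib, card_eq_sum_ones, mul_sum]
  refine sum_congr rfl (fun d hd => ?_)
  by_cases h : d ∈ Sts S X
  · rw [if_pos h, stub_one h, mul_one]
  · rw [if_neg h, inner_two hd h, mul_one, add_zero]

/-- number of visits of the region -/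
theorem visits_eq (S : Obj I) {X : Finset I} (hX : X ⊆ S.F) :
    (S.keep X).vis.card + 2 * (Dgs S X).card = 3 * X.card + 2 * (Sts S X).card := by
  classical
  have h1 := card_vis_add_card_glued (S.keep X)
  rw [keep_F S hX] at h1
  have h2 : ∑ t ∈ X, (gs S t).card = (S.glued.filter (fun a => a.1 ∈ X)).card := by
    rw [← card_biUnion]
    · congr 1
      ext a
      simp only [mem_biUnion, mem_gs, mem_filter, mem_glued]
      constructor
      · rintro ⟨t, ht, rfl, h⟩
        exact ⟨h, ht⟩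
      · rintro ⟨h, h'⟩
        exact ⟨a.1, h', rfl, h⟩
    · intro t _ t' _ htt
      rw [Function.onFun, disjoint_left]
      intro a ha hb
      exact htt ((mem_gs.1 ha).1.symm.trans (mem_gs.1 hb).1)
  have h3 : (S.glued.filter (fun a => a.1 ∈ X)).card = (S.keep X).glued.card + (S.bd X).card := by
    rw [← card_union_of_disjoint]
    · congr 1
      ext a
      simp only [mem_filter, mem_glued, mem_union, mem_bd, keep_g]
      by_cases h1 : a.1 ∈ X
      · by_cases h2 : (S.g a).1 ∈ X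
        · simp [h1, h2]
        · simp [h1, h2]
      · simp [h1]
    · rw [disjoint_left]
      intro a ha hb
      rw [mem_glued, keep_g] at ha
      rw [mem_bd] at hb
      rw [if_neg (fun h => hb.2.2 h.2)] at ha
      exact ha rfl
  have h4 := sum_card_inc S X
  have h5 : ∑ t ∈ X, (inc S t).card = ∑ t ∈ X, (gs S t).card := sum_congr rfl (fun t _ => card_inc S t)
  have h6 := card_Sts S X
  omega

/-- two triangles of the region share at most one diagonal -/
theorem share {S : Obj I}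
    (hsh : ∀ a b, a.1 = b.1 → a ≠ b → S.g a ≠ a → S.g b ≠ b → (S.g a).1 ≠ (S.g b).1)
    {t t' : I} (htt : t ≠ t') : (inc S t ∩ inc S t').card ≤ 1 := by
  rw [card_le_one]
  intro d hd e he
  rw [mem_inter] at hd he
  obtain ⟨a, rfl, ha, rfl⟩ := mem_inc.1 hd.1
  obtain ⟨b, hb1, hb, rfl⟩ := mem_inc.1 he.1
  have h1 := (dg_mem_inc_iff ha).1 hd.2
  have h2 := (dg_mem_inc_iff hb).1 he.2
  by_cases hab : a = b
  · rw [hab]
  · exfalso
    rcases h1 with h1 | h1
    · exact htt h1.symm
    · rcases h2 with h2 | h2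
      · exact htt (hb1.symm.trans h2.symm)
      · exact hsh a b hb1.symm hab ha hb (h1.symm.trans h2)

/-! ### visits of the region -/

/-- the visit of the region at the start of the side `a` -/
noncomputable def vz (S : Obj I) (X : Finset I) (a : Sd I) : Sd I :=
  if a.1 ∈ X then (S.keep X).last a else (S.keep X).last (rot (S.g a))

theorem keep_linear {S : Obj I} (hl : S.Linear) (X : Finset I) : (S.keep X).Linear :=
  hl.mono (keep_le S X)

/-- for a diagonal inside the region the two definitions agree -/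
theorem vz_inner {S : Obj I} (hl : S.Linear) {X : Finset I} {a : Sd I} (h1 : a.1 ∈ X)
    (h2 : (S.g a).1 ∈ X) (h3 : S.g a ≠ a) : (S.keep X).last (rot (S.g a)) = (S.keep X).last a := by
  have h4 : (S.keep X).g a = S.g a := by rw [keep_g, if_pos ⟨h1, h2⟩]
  have h5 : (S.keep X).cw a = rot (S.g a) := by
    rw [cw, h4, if_neg h3]
  rw [← h5]
  exact last_cw (keep_linear hl X) a

theorem vz_eqv {S : Obj I} {X : Finset I} {a : Sd I} (h3 : S.g a ≠ a) : S.Eqv a (vz S X a) := by
  unfold vz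
  split_ifs with h
  · exact (last_eqv (S.keep X) a).mono (keep_le S X)
  · exact (Eqv.of_glued h3).trans ((last_eqv (S.keep X) _).mono (keep_le S X))

theorem vz_mem {S : Obj I} (hl : S.Linear) {X : Finset I} (hX : X ⊆ S.F) {a : Sd I}
    (h : a.1 ∈ X ∨ (S.g a).1 ∈ X) : vz S X a ∈ (S.keep X).vis := by
  unfold vz
  split_ifs with h1
  · apply last_mem_vis (keep_linear hl X)
    rw [mem_sides, keep_F S hX]
    exact h1
  · apply last_mem_vis (keep_linear hl X)
    rw [mem_sides, keep_F S hX, rot_fst]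
    rcases h with h | h
    · exact absurd h h1
    · exact h

/-- a linear object has no clockwise cycles -/
theorem linear_cycle {S : Obj I} (hl : S.Linear) {a : Sd I} {m : ℕ} (hm : m ≠ 0)
    (h : S.cw^[m] a = a) : S.g a = a := by
  obtain ⟨n, hn⟩ := hl a
  have h1 : ∀ k, S.cw^[m * k] a = a := by
    intro k
    rw [Function.iterate_mul]
    exact Function.iterate_fixed h k
  have h2 : S.cw^[m * (n + 1)] a = S.cw^[n] a := by
    obtain ⟨k, hk⟩ := Nat.exists_eq_add_of_le (show n ≤ m * (n + 1) by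
      calc n ≤ n + 1 := Nat.le_succ n
        _ = 1 * (n + 1) := (one_mul _).symm
        _ ≤ m * (n + 1) := Nat.mul_le_mul_right _ (Nat.one_le_iff_ne_zero.2 hm))
    rw [hk, add_comm, Function.iterate_add_apply, cw_iter_of_unglued hn]
  rw [h1] at h2
  rw [← h2] at hn
  exact hn

/-! ### the blocked end -/

section blocked

variable (S : Obj I) (X : Finset I) (blk : Sd I → Prop)

open Classical in
/-- the blocked end of a diagonal, as a visit of the region -/
noncomputable def bl (d : Finset (Sd I)) : Option (Sd I) :=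
  if h : ∃ a ∈ d, blk a then some (vz S X h.choose) else none

variable {S X blk}

theorem bl_of_blk (hb1 : ∀ a, blk a → ¬ blk (S.g a)) {a : Sd I} (h : blk a) :
    bl S X blk (dg S a) = some (vz S X a) := by
  classical
  have hex : ∃ b ∈ dg S a, blk b := ⟨a, mem_dg.2 (Or.inl rfl), h⟩
  unfold bl
  rw [dif_pos hex]
  have h1 := hex.choose_spec
  rcases mem_dg.1 h1.1 with h2 | h2
  · rw [h2]
  · exact absurd (h2 ▸ h1.2) (hb1 a h)

theorem bl_none {a : Sd I} : bl S X blk (dg S a) = none ↔ ¬ blk a ∧ ¬ blk (S.g a) := by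
  classical
  unfold bl
  split_ifs with h
  · simp only [false_iff, not_and, not_not]
    obtain ⟨b, hb, hb'⟩ := h
    intro h1
    rcases mem_dg.1 hb with h2 | h2
    · exact absurd (h2 ▸ hb') h1
    · exact h2 ▸ hb'
  · simp only [true_iff]
    constructor
    · exact fun h1 => h ⟨a, mem_dg.2 (Or.inl rfl), h1⟩
    · exact fun h1 => h ⟨S.g a, mem_dg.2 (Or.inr rfl), h1⟩

theorem bl_some (hb1 : ∀ a, blk a → ¬ blk (S.g a)) {a w : Sd I} :
    bl S X blk (dg S a) = some w ↔ (blk a ∧ vz S X a = w) ∨ (blk (S.g a) ∧ vz S X (S.g a) = w) := by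
  by_cases h1 : blk a
  · rw [bl_of_blk hb1 h1]
    simp [h1, hb1 a h1]
  · by_cases h2 : blk (S.g a)
    · rw [← dg_g, bl_of_blk hb1 h2]
      simp [h1, h2]
    · rw [(bl_none).2 ⟨h1, h2⟩]
      simp [h1, h2]

/-- the diagonals of the region blocked at the visit `w` -/
noncomputable def Aw (S : Obj I) (X : Finset I) (blk : Sd I → Prop) (w : Sd I) :
    Finset (Finset (Sd I)) := (Dgs S X).filter (fun d => bl S X blk d = some w)

theorem mem_Aw (hb0 : ∀ a, blk a → S.g a ≠ a) (hb1 : ∀ a, blk a → ¬ blk (S.g a))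
    {d : Finset (Sd I)} {w : Sd I} : d ∈ Aw S X blk w ↔
    ∃ a, (a.1 ∈ X ∨ (S.g a).1 ∈ X) ∧ d = dg S a ∧ blk a ∧ vz S X a = w := by
  rw [Aw, mem_filter, mem_Dgs]
  constructor
  · rintro ⟨⟨a, h1, h2, rfl⟩, h3⟩
    rcases (bl_some hb1).1 h3 with ⟨h4, h5⟩ | ⟨h4, h5⟩
    · exact ⟨a, Or.inl h1, rfl, h4, h5⟩
    · exact ⟨S.g a, Or.inr (by rw [S.invol]; exact h1), (dg_g S a).symm, h4, h5⟩
  · rintro ⟨a, h1, rfl, h3, h4⟩
    refine ⟨?_, by rw [bl_of_blk hb1 h3, h4]⟩
    rcases h1 with h1 | h1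
    · exact ⟨a, h1, hb0 a h3, rfl⟩
    · exact ⟨S.g a, h1, g_ne_iff.2 (hb0 a h3), (dg_g S a).symm⟩

/-- `(G1)` : diagonals blocked at the same visit are consecutive -/
def G1 (S : Obj I) (blk : Sd I → Prop) : Prop :=
  ∀ a b, blk a → blk b → S.Eqv a b → a = b ∨ b = S.cw a ∨ a = S.cw b

theorem bl_mem (hl : S.Linear) (hX : X ⊆ S.F) (hb1 : ∀ a, blk a → ¬ blk (S.g a))
    {d : Finset (Sd I)} (hd : d ∈ Dgs S X) {w : Sd I} (h : bl S X blk d = some w) :
    w ∈ (S.keep X).vis := by
  obtain ⟨a, h1, h2, rfl⟩ := mem_Dgs.1 hd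
  rcases (bl_some hb1).1 h with ⟨_, h5⟩ | ⟨_, h5⟩
  · rw [← h5]
    exact vz_mem hl hX (Or.inl h1)
  · rw [← h5]
    exact vz_mem hl hX (Or.inr (by rw [S.invol]; exact h1))

/-- two different diagonals blocked at the same visit of the region: the triangle between them is in the region -/
theorem between_mem (hl : S.Linear) {a b : Sd I} (hb0 : ∀ a, blk a → S.g a ≠ a)
    (ha : blk a) (hb : blk b) (hab : b = S.cw a) (hw : vz S X a = vz S X b)
    (h1 : a.1 ∈ X ∨ (S.g a).1 ∈ X) : b.1 ∈ X := by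
  by_contra hb3
  have h3 : S.cw a = rot (S.g a) := by rw [cw, if_neg (hb0 a ha)]
  have h4 : b.1 = (S.g a).1 := by rw [hab, h3, rot_fst]
  have h5 : a.1 ∈ X := by
    rcases h1 with h1 | h1
    · exact h1
    · rw [← h4] at h1; exact absurd h1 hb3
  have h6 : vz S X a = a := by
    unfold vz
    rw [if_pos h5]
    apply last_of_unglued
    rw [keep_g, if_neg]
    rw [← h4]
    exact fun h => hb3 h.2
  have h7 : vz S X b = (S.keep X).last (rot (S.g b)) := by
    unfold vz
    rw [if_neg hb3]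
  -- clockwise iteration from `rot (g b)` leads to `a`
  obtain ⟨n, hn⟩ := keep_linear hl X (rot (S.g b))
  have h8 : (S.keep X).cw^[n] (rot (S.g b)) = a := by
    rw [← last_eq_of hn, ← h7, ← hw, h6]
  have h9 : ∀ (m : ℕ) (c : Sd I), ∃ k, (S.keep X).cw^[m] c = S.cw^[k] c := by
    intro m
    induction m with
    | zero => exact fun c => ⟨0, rfl⟩
    | succ m ih =>
      intro c
      rw [Function.iterate_succ_apply]
      by_cases h : (S.keep X).g c = c
      · rw [cw_of_unglued h]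
        exact ih c
      · obtain ⟨h', h''⟩ := (keep_le S X).glued h
        have h10 : (S.keep X).cw c = S.cw c := by rw [cw, cw, if_neg h, if_neg h'', h']
        rw [h10]
        obtain ⟨k, hk⟩ := ih (S.cw c)
        exact ⟨k + 1, by rw [hk, Function.iterate_succ_apply]⟩
  obtain ⟨k, hk⟩ := h9 n (rot (S.g b))
  have h10 : S.cw b = rot (S.g b) := by rw [cw, if_neg (hb0 b hb)]
  have h11 : S.cw^[k + 2] a = a := by
    rw [Function.iterate_add_apply]
    have : S.cw^[2] a = rot (S.g b) := by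
      rw [Function.iterate_succ_apply, Function.iterate_one, ← hab, h10]
    rw [this, ← hk, h8]
  exact hb0 a ha (linear_cycle hl (by omega) h11)

theorem A_le (hl : S.Linear) (hb0 : ∀ a, blk a → S.g a ≠ a) (hb1 : ∀ a, blk a → ¬ blk (S.g a))
    (hG : G1 S blk) (w : Sd I) : (Aw S X blk w).card ≤ 2 := by
  by_contra hlt
  rw [not_le] at hlt
  obtain ⟨d1, h1, d2, h2, d3, h3, h12, h13, h23⟩ := two_lt_card.1 hlt
  obtain ⟨a, _, rfl, ha, ha'⟩ := (mem_Aw hb0 hb1).1 h1
  obtain ⟨b, _, rfl, hb, hb'⟩ := (mem_Aw hb0 hb1).1 h2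
  obtain ⟨c, _, rfl, hc, hc'⟩ := (mem_Aw hb0 hb1).1 h3
  have eab : S.Eqv a b := (vz_eqv (X := X) (hb0 a ha)).trans (by
    rw [ha', ← hb']; exact (vz_eqv (hb0 b hb)).symm)
  have eac : S.Eqv a c := (vz_eqv (X := X) (hb0 a ha)).trans (by
    rw [ha', ← hc']; exact (vz_eqv (hb0 c hc)).symm)
  have ebc : S.Eqv b c := eab.symm.trans eac
  have nab : a ≠ b := fun h => h12 (by rw [h])
  have nac : a ≠ c := fun h => h13 (by rw [h])
  have nbc : b ≠ c := fun h => h23 (by rw [h])
  have key : ∀ x y z : Sd I, blk x → blk y → blk z → x ≠ y → x ≠ z → y ≠ z → S.Eqv x z →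
      y = S.cw x → z = S.cw y → False := by
    intro x y z hx hy hz n1 n2 n3 e h h'
    rcases hG x z hx hz e with h4 | h4 | h4
    · exact n2 h4
    · exact n3 (h.trans h4.symm)
    · have : S.cw^[3] x = x := by
        rw [Function.iterate_succ_apply, Function.iterate_succ_apply, Function.iterate_one, ← h, ← h', ← h4]
      exact hb0 x hx (linear_cycle hl (by norm_num) this)
  rcases hG a b ha hb eab with h4 | h4 | h4
  · exact nab h4
  · rcases hG b c hb hc ebc with h5 | h5 | h5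
    · exact nbc h5
    · exact key a b c ha hb hc nab nac nbc eac h4 h5
    · rcases hG a c ha hc eac with h6 | h6 | h6
      · exact nac h6
      · exact nbc (h4.trans h6.symm)
      · exact key c a b hc ha hb nac.symm nbc.symm nab ebc.symm h6 h4
  · rcases hG a c ha hc eac with h5 | h5 | h5
    · exact nac h5
    · exact key b a c hb ha hc nab.symm nbc nac ebc h4 h5
    · rcases hG b c hb hc ebc with h6 | h6 | h6
      · exact nbc h6
      · exact key b c a hb hc ha nbc nab.symm nac.symm eab.symm h6 h5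
      · exact key c b a hc hb ha nbc.symm nac.symm nab.symm eac.symm h6 h4

/-- a pair is hosted by a triangle of the region -/
theorem host (hl : S.Linear) (hb0 : ∀ a, blk a → S.g a ≠ a) (hb1 : ∀ a, blk a → ¬ blk (S.g a))
    (hG : G1 S blk) {w : Sd I} (h : (Aw S X blk w).card = 2) :
    ∃ b, b.1 ∈ X ∧ Aw S X blk w = {dg S b, dg S (unrot b)} ∧ blk b ∧ blk (S.g (unrot b)) ∧
      S.g (unrot b) ≠ unrot b := by
  obtain ⟨d1, d2, h12, hA⟩ := card_eq_two.1 h
  have h1 : d1 ∈ Aw S X blk w := by rw [hA]; exact mem_insert_self _ _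
  have h2 : d2 ∈ Aw S X blk w := by rw [hA]; exact mem_insert_of_mem (mem_singleton_self _)
  obtain ⟨a, ha0, rfl, ha, ha'⟩ := (mem_Aw hb0 hb1).1 h1
  obtain ⟨b, hb0', rfl, hb, hb'⟩ := (mem_Aw hb0 hb1).1 h2
  have eab : S.Eqv a b := (vz_eqv (X := X) (hb0 a ha)).trans (by
    rw [ha', ← hb']; exact (vz_eqv (hb0 b hb)).symm)
  have key : ∀ x y : Sd I, blk x → blk y → y = S.cw x →
      dg S (unrot y) = dg S x ∧ blk (S.g (unrot y)) ∧ S.g (unrot y) ≠ unrot y := by
    intro x y hx hy hxy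
    have h3 : unrot y = S.g x := by
      rw [hxy, cw, if_neg (hb0 x hx), unrot_rot]
    rw [h3]
    exact ⟨dg_g S x, by rw [S.invol]; exact hx, by rw [S.invol]; exact (hb0 x hx).symm⟩
  rcases hG a b ha hb eab with h4 | h4 | h4
  · exact absurd (by rw [h4]) h12
  · have hbX := between_mem hl hb0 ha hb h4 (ha'.trans hb'.symm) ha0
    obtain ⟨k1, k2, k3⟩ := key a b ha hb h4
    exact ⟨b, hbX, by rw [hA, k1, pair_comm], hb, k2, k3⟩
  · have haX := between_mem hl hb0 hb ha h4 (hb'.trans ha'.symm) hb0'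
    obtain ⟨k1, k2, k3⟩ := key b a hb ha h4
    exact ⟨a, haX, by rw [hA, k1], ha, k2, k3⟩

end blocked

end Pool.Agent.Helper29.AG7
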