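import Pool.Agent.Helper29.AG7.FlipStub
import Pool.Agent.AG.Red.FlipRed
import Pool.Agent.Helper29.AG7.Dict

/-!
# AG section 7.3: a convex fan of faces with U diagonals between two edges of a 2-cut is impossible

`e i = S.cw^[i] c'`, `0 ≤ i ≤ k`; `bd K = {e k, g (e 0)}`; the triangles of `e 1, …, e k` are faces in `K`.
-/

set_option autoImplicit false
set_option linter.unusedSectionVars false
open Finset

namespace Pool.Agent.Helper29.AG7

open AG AG.Obj

variable {I : Type} [DecidableEq I]

theorem sigF_mem {a b : Sd I} (hba : b.1 ≠ a.1) {K : Finset I} (h1 : a.1 ∈ K) (h2 : b.1 ∈ K) (d : Sd I) :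
    (sigF a b d).1 ∈ K ↔ d.1 ∈ K := by
  by_cases k1 : d = a
  · subst k1; rw [sigF_a]; rfl
  by_cases k2 : d = rot a
  · subst k2; rw [sigF_ra]; exact ⟨fun _ => h1, fun _ => h2⟩
  by_cases k3 : d = b
  · subst k3; rw [sigF_b hba]; rfl
  by_cases k4 : d = rot b
  · subst k4; rw [sigF_rb hba]; exact ⟨fun _ => h2, fun _ => h1⟩
  rw [sigF_other k1 k2 k3 k4]

theorem flip_glued_iff {S : Obj I} {a : Sd I} (h : S.Flippable a) (d : Sd I) :
    (S.flip a h).g (sigF a (S.g a) d) ≠ sigF a (S.g a) d ↔ S.g d ≠ d := by
  rw [flip_g_sig, not_iff_not]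
  exact ⟨fun e => (sig a (S.g a) h.ne).injective e, fun e => by rw [e]⟩

/-- the boundary after the flip of a diagonal inside `K` -/
theorem bd_flip {S : Obj I} {a : Sd I} (h : S.Flippable a) {K : Finset I} (h1 : a.1 ∈ K)
    (h2 : (S.g a).1 ∈ K) : (S.flip a h).bd K = (S.bd K).image (sigF a (S.g a)) := by
  ext c
  obtain ⟨d, rfl⟩ : ∃ d, sigF a (S.g a) d = c := ⟨sigB a (S.g a) c, sigF_sigB h.ne c⟩
  have key : sigF a (S.g a) d ∈ (S.flip a h).bd K ↔ d ∈ S.bd K := by
    rw [mem_bd, mem_bd, flip_glued_iff, sigF_mem h.ne h1 h2, flip_g_sig, sigF_mem h.ne h1 h2]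
  rw [key, mem_image]
  constructor
  · exact fun hd => ⟨d, hd, rfl⟩
  · rintro ⟨d', hd', he⟩
    have : d' = d := (sig a (S.g a) h.ne).injective he
    rwa [← this]

/-- FACE LEMMA at a fan of length one -/
theorem face_two_cut {S : Obj I} (hb : S.Bridgeless) {K : Finset I} (hK : K ⊆ S.F) {c : Sd I}
    (hf : S.Face c.1) (hc : c.1 ∈ K) (hbd : S.bd K = {c, unrot c}) : False := by
  have h1 : S.g (rot c) ≠ rot c := hf.2 _
  have h2 : (S.g (rot c)).1 ∈ K := by
    by_contra h
    have : rot c ∈ S.bd K := mem_bd.2 ⟨h1, hc, h⟩
    rw [hbd, mem_insert, mem_singleton] at this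
    rcases this with h3 | h3
    · exact rot_ne c h3
    · exact unrot_ne_rot c h3.symm
  refine hb (S.g (rot c)) ⟨K.erase c.1, (erase_subset _ _).trans hK, ?_⟩
  ext d
  rw [mem_bd, mem_singleton]
  constructor
  · rintro ⟨h3, h4, h5⟩
    rw [mem_erase] at h4
    by_cases h6 : (S.g d).1 = c.1
    · rcases eq_of_fst_eq h6 with h7 | h7 | h7
      · exfalso
        have : c ∈ S.bd K := by rw [hbd]; exact mem_insert_self _ _
        rw [mem_bd, ← h7, S.invol] at this
        exact this.2.2 h4.2
      · rw [← h7, S.invol]
      · exfalso
        have : unrot c ∈ S.bd K := by rw [hbd]; exact mem_insert_of_mem (mem_singleton_self _)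
        rw [mem_bd, ← h7, S.invol] at this
        exact this.2.2 h4.2
    · exfalso
      have h7 : (S.g d).1 ∉ K := fun h => h5 (mem_erase.2 ⟨h6, h⟩)
      have : d ∈ S.bd K := mem_bd.2 ⟨h3, h4.2, h7⟩
      rw [hbd, mem_insert, mem_singleton] at this
      rcases this with h8 | h8
      · exact h4.1 (by rw [h8])
      · exact h4.1 (by rw [h8, unrot_fst])
  · rintro rfl
    refine ⟨g_ne_iff.2 h1, mem_erase.2 ⟨S.ne _ h1, h2⟩, ?_⟩
    rw [S.invol, rot_fst]
    exact fun h => (mem_erase.1 h).1 rfl

section
variable {R : Set Pt}

/-- THE CONVEX FAN -/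
theorem no_convex_fan (k : ℕ) : ∀ (S : Obj I) (pt : Sd I → Pt), Cex S pt R → ∀ (K : Finset I) (c : Sd I),
    K ⊆ S.F → c.1 ∉ K → S.bd K = {S.cw^[k + 1] c, S.g c} →
    (∀ i ≤ k + 1, S.g (S.cw^[i] c) ≠ S.cw^[i] c) →
    (∀ i, 1 ≤ i → i ≤ k + 1 → (S.cw^[i] c).1 ∈ K ∧ S.Face (S.cw^[i] c).1) →
    (∀ i, 1 ≤ i → i ≤ k → ¬ S.Blk pt (S.g (S.cw^[i] c))) →
    ∑ i ∈ range (k + 1), cang pt (S.cw^[i + 1] c) < Real.pi → False := by
  induction k with
  | zero =>
    intro S pt hC K c hK _ hbd hgl hin _ _
    have h0 : S.g c ≠ c := hgl 0 (by omega)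
    have h1 := hin 1 le_rfl (by omega)
    rw [zero_add, Function.iterate_one] at hbd
    rw [Function.iterate_one] at h1
    have h2 : unrot (S.cw c) = S.g c := by rw [cw, if_neg h0, unrot_rot]
    refine face_two_cut hC.bridgeless hK h1.2 h1.1 ?_
    rw [h2]
    exact hbd
  | succ k ih =>
    intro S pt hC K c hK hcK hbd hgl hin hnb hsum
    have hG := hC.geo
    have hl := hG.linear
    set e : ℕ → Sd I := fun i => S.cw^[i] c with he
    have hes : ∀ i ≤ k + 2, e (i + 1) = rot (S.g (e i)) := by
      intro i hi
      simp only [he]
      rw [Function.iterate_succ_apply', cw, if_neg (hgl i hi)]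
    have hpt : ∀ i, pt (e i) = pt c := fun i => (hG.pt_eq (cw_iter_eqv S i c)).symm
    have hF : ∀ i ≤ k + 2, (e i).1 ∈ S.F := fun i hi => S.memF _ (hgl i hi)
    have hinj : ∀ i j, i < j → j ≤ k + 2 → e i ≠ e j := by
      intro i j hij hj h
      have h1 : S.cw^[j - i] (e i) = e i := by
        simp only [he] at h ⊢
        rw [← Function.iterate_add_apply, Nat.sub_add_cancel hij.le]
        exact h.symm
      exact hgl i (by omega) (linear_cycle hl (by omega) h1)
    -- the diagonal to be flipped
    set a : Sd I := e (k + 1) with ha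
    have hae : rot (S.g a) = e (k + 2) := (hes (k + 1) (by omega)).symm
    have haK : a.1 ∈ K := (hin (k + 1) (by omega) (by omega)).1
    have hbK : (S.g a).1 ∈ K := by
      have := (hin (k + 2) (by omega) (by omega)).1
      have h1 : (e (k + 2)).1 = (S.g a).1 := by rw [← hae, rot_fst]
      rw [← h1]
      exact this
    have haF := S.memF _ (hgl (k + 1) (by omega))
    have hga : S.g a ≠ a := hgl (k + 1) (by omega)
    have hcp : ∀ i ≤ k + 2, 0 < cang pt (e i) := fun i hi => hG.cang_pos (hF i hi)
    have hU : S.IsU pt a := by
      refine AG.Geo.isU_iff.2 ⟨hga, ?_, hnb (k + 1) (by omega) le_rfl⟩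
      rintro ⟨_, h⟩
      rw [hae] at h
      have h1 : cang pt (e (k + 1)) + cang pt (e (k + 2)) ≤ ∑ i ∈ range (k + 2), cang pt (e (i + 1)) := by
        rw [sum_range_succ, sum_range_succ]
        have : 0 ≤ ∑ i ∈ range k, cang pt (e (i + 1)) :=
          sum_nonneg (fun i hi => (hcp (i + 1) (by rw [mem_range] at hi; omega)).le)
        linarith
      have h2 : ∑ i ∈ range (k + 2), cang pt (e (i + 1)) < Real.pi := hsum
      rw [ha] at h
      linarith
    have hfl : S.Flippable a := IsU.flippable hG hU
    have hC' := hC.flip hU hfl
    -- points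
    have hpa : pt a = pt c := hpt _
    have hra : pt (rot a) ≠ pt c := by
      rw [← hpa]; exact (hG.ccw_at haF).ne.symm
    have hura : pt (unrot a) ≠ pt c := by
      rw [← hpa]; exact (hG.ccw_at haF).ne'.symm
    have hbF : (S.g a).1 ∈ S.F := g_memF hga
    have hrb : pt (rot (S.g a)) = pt c := by rw [hae]; exact hpt _
    have hb : pt (S.g a) ≠ pt c := by
      rw [← hrb]; exact (hG.ccw_at hbF).ne
    have hurb : pt (unrot (S.g a)) ≠ pt c := by
      rw [← hrb]; exact (hG.ccw_at hbF).ne''.symm
    -- `sigF` fixes the sides at the fan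
    have hs1 : ∀ i ≤ k, sigF a (S.g a) (e i) = e i := by
      intro i hi
      refine sigF_other (hinj i (k + 1) (by omega) (by omega)) ?_ ?_ ?_
      · intro h; exact hra (by rw [← h]; exact hpt i)
      · intro h; exact hb (by rw [← h]; exact hpt i)
      · rw [hae]; exact hinj i (k + 2) (by omega) (by omega)
    have hs2 : ∀ i ≤ k, sigF a (S.g a) (S.g (e i)) = S.g (e i) := by
      intro i hi
      have h1 : pt (rot (S.g (e i))) = pt c := by rw [← hes i (by omega)]; exact hpt _
      refine sigF_other ?_ ?_ ?_ ?_
      · intro h; rw [h] at h1; exact hra h1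
      · intro h; rw [h, rot_rot] at h1; exact hura h1
      · intro h
        exact hinj i (k + 1) (by omega) (by omega) (S.g_injective h)
      · intro h; rw [h, rot_rot] at h1; exact hurb h1
    have hgc : ∀ i ≤ k, (S.flip a hfl).g (e i) = S.g (e i) := by
      intro i hi
      have := flip_g_sig hfl (e i)
      rwa [hs1 i hi, hs2 i hi] at this
    have hga' : (S.flip a hfl).g a = S.g (e (k + 2)) := by
      have := flip_g_sig hfl (rot (S.g a))
      rw [sigF_rb hfl.ne] at this
      rw [this, hae]
      have h1 : e (k + 2) ∈ S.bd K := by rw [hbd]; exact mem_insert_self _ _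
      have h2 := (mem_bd.1 h1).2.2
      refine sigF_other ?_ ?_ ?_ ?_
      · intro h; rw [h] at h2; exact h2 haK
      · intro h; rw [h] at h2; exact h2 haK
      · intro h; rw [h] at h2; exact h2 hbK
      · intro h; rw [h] at h2; exact h2 hbK
    have hit : ∀ i ≤ k + 1, (S.flip a hfl).cw^[i] c = e i := by
      intro i
      induction i with
      | zero => intro _; rfl
      | succ i ih2 =>
        intro hi
        rw [Function.iterate_succ_apply', ih2 (by omega), cw, hgc i (by omega),
          if_neg (hgl i (by omega)), hes i (by omega)]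
    have hgi : ∀ i ≤ k + 1, (S.flip a hfl).g (e i) ≠ e i := by
      intro i hi
      rcases Nat.lt_or_ge k i with h1 | h1
      · have : i = k + 1 := by omega
        rw [this]
        change (S.flip a hfl).g a ≠ a
        rw [hga']
        have h1 : e (k + 2) ∈ S.bd K := by rw [hbd]; exact mem_insert_self _ _
        have h2 := (mem_bd.1 h1).2.2
        intro h
        rw [h] at h2
        exact h2 haK
      · rw [hgc i h1]
        exact hgl i (by omega)
    refine ih (S.flip a hfl) (flipPt pt a (S.g a)) hC' K c hK hcK ?_ ?_ ?_ ?_ ?_
    · rw [bd_flip hfl haK hbK, hbd, image_insert, image_singleton, hit (k + 1) le_rfl]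
      have h1 : sigF a (S.g a) (S.cw^[k + 1 + 1] c) = a := by
        have : S.cw^[k + 1 + 1] c = rot (S.g a) := hae.symm
        rw [this]
        exact sigF_rb hfl.ne
      have h2 : sigF a (S.g a) (S.g c) = (S.flip a hfl).g c := by
        have e1 : e 0 = c := rfl
        have := hs2 0 (by omega)
        rw [e1] at this
        rw [this, ← e1, hgc 0 (by omega)]
      rw [h1, h2]
    · intro i hi
      rw [hit i hi]
      exact hgi i hi
    · intro i h1 h2
      rw [hit i h2]
      have h3 := hin i h1 (by omega)
      refine ⟨h3.1, h3.2.1, ?_⟩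
      -- face
      intro j
      by_cases h4 : (e i).1 = a.1
      · -- the three sides of the triangle `a.1`
        have h5 : ∀ d : Sd I, d.1 = a.1 → (S.flip a hfl).g d ≠ d := by
          intro d hd
          rcases eq_of_fst_eq hd with h6 | h6 | h6
          · rw [h6]; exact hgi (k + 1) le_rfl
          · rw [h6, ← sigF_a (a := a) (b := S.g a), flip_glued_iff]
            exact hga
          · have h7 : sigF a (S.g a) (unrot a) = unrot a :=
              sigF_other (unrot_ne a) (unrot_ne_rot a) (ne_of_fst hfl.ne.symm) (ne_of_fst hfl.ne.symm)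
            rw [h6, ← h7, flip_glued_iff]
            have h8 := (hin (k + 1) (by omega) (by omega)).2
            exact h8.2 (unrot a).2
        exact h5 ((e i).1, j) h4
      · by_cases h5 : (e i).1 = (S.g a).1
        · exfalso
          have h6 : (e i).1 = (e (k + 2)).1 := by rw [← hae, rot_fst]; exact h5
          have h7 : e i = e (k + 2) := by
            rcases eq_of_fst_eq h6 with h8 | h8 | h8
            · exact h8
            · exfalso
              have := (hG.ccw_at (hF (k + 2) le_rfl)).ne
              rw [← h8, hpt, hpt] at this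
              exact this rfl
            · exfalso
              have := (hG.ccw_at (hF (k + 2) le_rfl)).ne'
              rw [← h8, hpt, hpt] at this
              exact this rfl
          exact hinj i (k + 2) (by omega) le_rfl h7
        · have h6 : sigF a (S.g a) ((e i).1, j) = ((e i).1, j) :=
            sigF_other (ne_of_fst h4) (ne_of_fst h4) (ne_of_fst h5) (ne_of_fst h5)
          change (S.flip a hfl).g ((e i).1, j) ≠ ((e i).1, j)
          rw [← h6, flip_glued_iff]
          exact h3.2.2 j
    · intro i h1 h2
      rw [hit i (by omega)]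
      rintro ⟨_, h4⟩
      refine hnb i h1 (by omega) ⟨g_ne_iff.2 (hgl i (by omega)), ?_⟩
      rw [(S.flip a hfl).invol, hgc i (by omega)] at h4
      rw [S.invol]
      refine h4.trans ?_
      -- the triangle of `e i` is not changed
      have hne : ∀ j, j ≤ k + 2 → i ≠ j → (e i).1 ≠ (e j).1 := by
        intro j hj hij h6
        have h7 : e i = e j := by
          rcases eq_of_fst_eq h6 with h8 | h8 | h8
          · exact h8
          · exfalso
            have := (hG.ccw_at (hF j hj)).ne
            rw [← h8, hpt, hpt] at this
            exact this rfl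
          · exfalso
            have := (hG.ccw_at (hF j hj)).ne'
            rw [← h8, hpt, hpt] at this
            exact this rfl
        rcases Nat.lt_or_ge i j with h8 | h8
        · exact hinj i j h8 hj h7
        · exact hinj j i (by omega) (by omega) h7.symm
      have h5 : cang (flipPt pt a (S.g a)) (rot (e i)) = cang pt (rot (e i)) := by
        apply fs_other
        · rw [rot_fst]; exact hne (k + 1) (by omega) (by omega)
        · rw [rot_fst]
          have := hne (k + 2) le_rfl (by omega)
          rwa [← hae, rot_fst] at this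
      have h6 : cang (flipPt pt a (S.g a)) (S.g (e i)) ≤ cang pt (S.g (e i)) := by
        have h7 : S.g (e i) = unrot (e (i + 1)) := by rw [hes i (by omega), unrot_rot]
        rcases Nat.lt_or_ge i k with h8 | h8
        · refine (fs_other ?_ ?_).le
          · rw [h7, unrot_fst]
            intro h9
            have h10 : e (i + 1) = e (k + 1) := by
              rcases eq_of_fst_eq h9 with h11 | h11 | h11
              · exact h11
              · exfalso
                have := (hG.ccw_at haF).ne
                rw [← h11, hpt, hpt] at this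
                exact this rfl
              · exfalso
                have := (hG.ccw_at haF).ne'
                rw [← h11, hpt, hpt] at this
                exact this rfl
            exact hinj (i + 1) (k + 1) (by omega) (by omega) h10
          · rw [h7, unrot_fst]
            intro h9
            have h9' : (e (i + 1)).1 = (e (k + 2)).1 := by rw [← hae, rot_fst]; exact h9
            have h10 : e (i + 1) = e (k + 2) := by
              rcases eq_of_fst_eq h9' with h11 | h11 | h11
              · exact h11
              · exfalso
                have := (hG.ccw_at (hF (k + 2) le_rfl)).ne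
                rw [← h11, hpt, hpt] at this
                exact this rfl
              · exfalso
                have := (hG.ccw_at (hF (k + 2) le_rfl)).ne'
                rw [← h11, hpt, hpt] at this
                exact this rfl
            exact hinj (i + 1) (k + 2) (by omega) (by omega) h10
        · have h9 : i = k := by omega
          rw [h7, h9]
          exact (hG.fs_w1 hU hfl).le
      linarith
    · have h1 : ∀ i ∈ range k, cang (flipPt pt a (S.g a)) ((S.flip a hfl).cw^[i + 1] c) = cang pt (e (i + 1)) := by
        intro i hi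
        rw [mem_range] at hi
        rw [hit (i + 1) (by omega)]
        refine fs_other ?_ ?_
        · intro h9
          have h10 : e (i + 1) = e (k + 1) := by
            rcases eq_of_fst_eq h9 with h11 | h11 | h11
            · exact h11
            · exfalso
              have := (hG.ccw_at haF).ne
              rw [← h11, hpt, hpt] at this
              exact this rfl
            · exfalso
              have := (hG.ccw_at haF).ne'
              rw [← h11, hpt, hpt] at this
              exact this rfl
          exact hinj (i + 1) (k + 1) (by omega) (by omega) h10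
        · intro h9
          have h9' : (e (i + 1)).1 = (e (k + 2)).1 := by rw [← hae, rot_fst]; exact h9
          have h10 : e (i + 1) = e (k + 2) := by
            rcases eq_of_fst_eq h9' with h11 | h11 | h11
            · exact h11
            · exfalso
              have := (hG.ccw_at (hF (k + 2) le_rfl)).ne
              rw [← h11, hpt, hpt] at this
              exact this rfl
            · exfalso
              have := (hG.ccw_at (hF (k + 2) le_rfl)).ne'
              rw [← h11, hpt, hpt] at this
              exact this rfl
          exact hinj (i + 1) (k + 2) (by omega) (by omega) h10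
      rw [sum_range_succ, sum_congr rfl h1, hit (k + 1) le_rfl]
      have h2 : cang (flipPt pt a (S.g a)) a = cang pt a + cang pt (rot (S.g a)) := hG.fs_a hU
      have h3 : ∑ i ∈ range (k + 1 + 1), cang pt (S.cw^[i + 1] c) < Real.pi := hsum
      rw [sum_range_succ, sum_range_succ] at h3
      rw [hae] at h2
      change ∑ i ∈ range k, cang pt (e (i + 1)) + cang (flipPt pt a (S.g a)) a < Real.pi
      rw [h2]
      have h4 : ∑ i ∈ range k, cang pt (e (i + 1)) + cang pt (e (k + 1)) + cang pt (e (k + 2)) < Real.pi := h3
      rw [ha]
      linarith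

end

end Pool.Agent.Helper29.AG7
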