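import Pool.Agent.Helper29.AG7.Tor

/-!
# AG: (D4), the number of virtual blades of the region is at most `|X0|`
-/

set_option autoImplicit false
set_option linter.unusedSectionVars false
open Finset

namespace Pool.Agent.Helper29.AG7

open AG AG.Obj

variable {I : Type} [DecidableEq I] {S : Obj I} {pt : Sd I → Pt} {R : Finset I} {V : Sd I → Prop}

/-- identity and ear ends -/
theorem cand_add_ears (hE : Env S pt R V) :
    (S.CandK pt R V).card + (S.EarsK R).card ≤ (S.CP pt R V).card := by
  classical
  have hB := hE.base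
  have h1 := hB.ident hE.shape
  have hF : S.Fam pt R V (∅ : Finset ℕ) (fun _ => ∅) (fun _ => ((Classical.choice hB.conn.1.to_type, 0) : Sd I)) := by
    refine ⟨fun i hi => absurd hi (notMem_empty i), fun i hi => absurd hi (notMem_empty i),
      fun i hi => absurd hi (notMem_empty i), fun i hi => absurd hi (notMem_empty i),
      fun i hi => absurd hi (notMem_empty i), fun i hi => absurd hi (notMem_empty i),
      fun z hz hV => ?_, fun i hi => absurd hi (notMem_empty i),
      fun i hi => absurd hi (notMem_empty i)⟩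
    obtain ⟨w, hw, he⟩ := hE.Vbl z hV
    exact hz w hw he
  have h2 := hF.zr_le hB hE.shape.sub hE.shape.Vinv
  have h3 : (S.earsT R (∅ : Finset ℕ) (fun _ => ∅)) = S.EarsK R := by
    rw [earsT, filter_eq_self]
    intro c _ i hi
    exact absurd hi (notMem_empty i)
  rw [h3] at h2
  omega

/-- (D4) -/
theorem card_cand_le (hE : Env S pt R V) :
    (S.CandK pt R V).card ≤ (X0 S pt R V).card := by
  classical
  have h1 := cand_add_ears hE
  have h2 : ((S.CP pt R V).filter (fun p => ¬ ∀ c, S.Eared c → c.1 ∉ tor S pt p)).card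
      ≤ (S.EarsK R).card := by
    have hch : ∀ p : Sd I × Sd I, ∃ c : Sd I,
        p ∈ (S.CP pt R V).filter (fun p => ¬ ∀ c, S.Eared c → c.1 ∉ tor S pt p) →
        S.Eared c ∧ c.1 ∈ tor S pt p := by
      intro p
      by_cases hp : p ∈ (S.CP pt R V).filter (fun p => ¬ ∀ c, S.Eared c → c.1 ∉ tor S pt p)
      · have := (mem_filter.1 hp).2
        push Not at this
        obtain ⟨c, hc, hm⟩ := this
        exact ⟨c, fun _ => ⟨hc, hm⟩⟩
      · exact ⟨p.1, fun h => absurd h hp⟩
    choose f hf using hch
    apply card_le_card_of_injOn f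
    · intro p hp
      obtain ⟨h3, h4⟩ := hf p hp
      rw [mem_coe, mem_EarsK]
      exact ⟨h3, hE.subA p (mem_filter.1 hp).1 (tor_sub h4)⟩
    · intro p hp q hq h
      by_contra hne
      obtain ⟨_, h4⟩ := hf p hp
      obtain ⟨_, h4'⟩ := hf q hq
      rw [← h] at h4'
      exact disjoint_left.1 (tor_disj hE (mem_filter.1 hp).1 (mem_filter.1 hq).1 hne) h4 h4'
  have h3 := card_filter_add_card_filter_not (s := S.CP pt R V)
    (fun p => ∀ c, S.Eared c → c.1 ∉ tor S pt p)
  have h4 : (X0 S pt R V).card
      = ((S.CP pt R V).filter (fun p => ∀ c, S.Eared c → c.1 ∉ tor S pt p)).card := rfl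
  omega

end Pool.Agent.Helper29.AG7
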