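import Pool.Agent.AG.Red.GeoStub

/-!
# geometric facts used in ConvFan.lean (owner: GEO-B, helper23)
-/

set_option autoImplicit false
open Finset

namespace AG

variable {I : Type} [DecidableEq I]

namespace Obj

theorem Geo.fs_a {S : Obj I} {pt : Sd I → Pt} (hG : S.Geo pt) {a : Sd I} (hU : S.IsU pt a) :
    cang (flipPt pt a (S.g a)) a = cang pt a + cang pt (rot (S.g a)) :=
  AG.Geo.cang_flip_a hG hU

theorem Geo.fs_w1 {S : Obj I} {pt : Sd I → Pt} (hG : S.Geo pt) {a : Sd I} (hU : S.IsU pt a)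
    (h : S.Flippable a) : cang (flipPt pt a (S.g a)) (unrot a) < cang pt (unrot a) := by
  have h1 := AG.Geo.cang_flip_w1 hG hU
  have h2 : 0 < cang (flipPt pt a (S.g a)) (rot (S.g a)) := by
    apply AG.Geo.cang_pos (Obj.Geo.flip hG hU h)
    exact g_memF hU.glued
  linarith

theorem fs_other {pt : Sd I → Pt} {a b c : Sd I} (h1 : c.1 ≠ a.1) (h2 : c.1 ≠ b.1) :
    cang (flipPt pt a b) c = cang pt c := AG.Geo.cang_flip_other h1 h2

end Obj

end AG
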