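import Pool.Agent.AG.Fan
import Pool.Agent.AG.Blades
import Pool.Agent.AG.GeoMore

/-!
# AG: neighbouring corners of a visit, walks, and the shape of a fan at the far end of a stub (6.7)

`Nb S x y` : the corners `x`, `y` of one visit are neighbours (in one of the two directions); `Bk S pt x y` : the diagonal
between them is blocked at this visit.  `D1 S x y` : `y` is a dead end beyond `x`, its triangle is a blade.
`D2 S pt x y` : `y` is in a face, then comes one more corner, the last one, in a blade, and the diagonal between these two is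
not blocked at the visit.
-/

set_option autoImplicit false
set_option linter.unusedSectionVars false
open Finset

namespace Pool.Agent.Helper29.AG7

open AG AG.Obj

variable {I : Type} [DecidableEq I]

/-- neighbouring corners at one visit -/
def Nb (S : Obj I) (x y : Sd I) : Prop := S.Step x y ∨ S.Step y x

/-- the diagonal between the neighbouring corners `x`, `y` is blocked at their visit -/
def Bk (S : Obj I) (pt : Sd I → Pt) (x y : Sd I) : Prop :=
  (S.Step x y ∧ S.Blk pt x) ∨ (S.Step y x ∧ S.Blk pt y)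

variable {S : Obj I} {pt : Sd I → Pt}

theorem Nb.symm {x y : Sd I} (h : Nb S x y) : Nb S y x := Or.symm h

theorem Nb.eqv {x y : Sd I} (h : Nb S x y) : S.Eqv x y := by
  rcases h with h | h
  · exact Relation.EqvGen.rel _ _ h
  · exact (Relation.EqvGen.rel _ _ h : S.Eqv y x).symm

theorem Bk.symm {x y : Sd I} (h : Bk S pt x y) : Bk S pt y x := Or.symm h

theorem Bk.nb {x y : Sd I} (h : Bk S pt x y) : Nb S x y := by
  rcases h with h | h
  · exact Or.inl h.1
  · exact Or.inr h.1

theorem step_iff_cw {x y : Sd I} : S.Step x y ↔ S.g x ≠ x ∧ y = S.cw x := by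
  constructor
  · rintro ⟨h1, h2⟩
    exact ⟨h1, by rw [cw, if_neg h1, h2]⟩
  · rintro ⟨h1, h2⟩
    exact ⟨h1, by rw [h2, cw, if_neg h1]⟩

theorem step_iff_ccw {x y : Sd I} : S.Step y x ↔ S.g (unrot x) ≠ unrot x ∧ y = S.g (unrot x) := by
  constructor
  · rintro ⟨h1, h2⟩
    have h3 : unrot x = S.g y := by rw [h2, unrot_rot]
    rw [h3, S.invol]
    exact ⟨h1.symm, rfl⟩
  · rintro ⟨h1, h2⟩
    refine ⟨?_, ?_⟩
    · rw [h2, S.invol]; exact h1.symm
    · rw [h2, S.invol, rot_unrot]

theorem nb_iff {x y : Sd I} : Nb S x y ↔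
    (S.g x ≠ x ∧ y = rot (S.g x)) ∨ (S.g (unrot x) ≠ unrot x ∧ y = S.g (unrot x)) :=
  or_congr Iff.rfl step_iff_ccw

theorem Nb.ps (hl : S.Linear) {x y : Sd I} (h : Nb S x y) : S.ps x = S.ps y + 1 ∨ S.ps y = S.ps x + 1 := by
  rcases h with h | h
  · rw [step_iff_cw] at h
    left
    rw [h.2]
    exact ps_of_glued hl h.1
  · rw [step_iff_cw] at h
    right
    rw [h.2]
    exact ps_of_glued hl h.1

/-- `y` is a dead end beyond `x`, in a blade -/
def D1 (S : Obj I) (x y : Sd I) : Prop :=
  (∃ u, S.Blade u ∧ u.1 = y.1) ∧ ∀ y', Nb S y y' → y' = x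

/-- `y` is in a face, beyond it there is exactly one more corner, a dead end in a blade, the diagonal between the two is
not blocked at the visit -/
def D2 (S : Obj I) (pt : Sd I → Pt) (x y : Sd I) : Prop :=
  S.Face y.1 ∧ ∃ y2, Nb S y y2 ∧ y2 ≠ x ∧ ¬ Bk S pt y y2 ∧ (∀ y', Nb S y y' → y' = x ∨ y' = y2) ∧
    (∀ y', Nb S y2 y' → y' = y) ∧ ∃ u, S.Blade u ∧ u.1 = y2.1

/-! ### walks along a fan -/

/-- `n 0, …, n m` are all corners of the visit of `n 0`, in the order of the fan -/
structure Walk (S : Obj I) (n : ℕ → Sd I) (m : ℕ) : Prop where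
  nb : ∀ i < m, Nb S (n i) (n (i + 1))
  inj : ∀ i j, i ≤ m → j ≤ m → n i = n j → i = j
  all : ∀ x, S.Eqv (n 0) x → ∃ i ≤ m, x = n i
  adj : ∀ i j, i ≤ m → j ≤ m → Nb S (n i) (n j) → j = i + 1 ∨ i = j + 1

theorem Walk.eqv {n : ℕ → Sd I} {m : ℕ} (W : Walk S n m) : ∀ i ≤ m, S.Eqv (n 0) (n i) := by
  intro i
  induction i with
  | zero => exact fun _ => Eqv.refl _ _
  | succ i ih => exact fun hi => (ih (by omega)).trans (W.nb i (by omega)).eqv

/-- the walk from the clockwise end of a fan -/
theorem exists_walk_bot (hl : S.Linear) {z : Sd I} (hz : z.1 ∈ S.F) (h : S.g z = z) :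
    ∃ n m, Walk S n m ∧ n 0 = z := by
  classical
  obtain ⟨b, hb1, hb2, hb3⟩ := exists_top hl hz
  have hex : ∀ k, k ≤ S.ps b → ∃ c, S.Eqv z c ∧ S.ps c = k := by
    intro k hk
    obtain ⟨c, hc1, hc2⟩ := exists_ps hl hk
    exact ⟨c, hb1.trans hc1, hc2⟩
  let n : ℕ → Sd I := fun k => if hk : k ≤ S.ps b then (hex k hk).choose else z
  have hn : ∀ k ≤ S.ps b, S.Eqv z (n k) ∧ S.ps (n k) = k := by
    intro k hk
    have := (hex k hk).choose_spec
    simp only [n, dif_pos hk]
    exact this
  have hn0 : n 0 = z := by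
    have h1 := hn 0 (Nat.zero_le _)
    exact ps_inj hl h1.1.symm (by rw [h1.2, ps_of_unglued h])
  refine ⟨n, S.ps b, ⟨?_, ?_, ?_, ?_⟩, hn0⟩
  · intro i hi
    have h1 := hn i (by omega)
    have h2 := hn (i + 1) (by omega)
    have h3 := ccw_of_ps hl (h1.1.symm.trans h2.1) (by rw [h1.2, h2.2])
    right
    rw [step_iff_cw]
    exact ⟨h3.2.1, h3.1.symm⟩
  · intro i j hi hj hij
    rw [← (hn i hi).2, hij, (hn j hj).2]
  · intro x hx
    rw [hn0] at hx
    refine ⟨S.ps x, hb3 x hx, ?_⟩
    have h1 := hn (S.ps x) (hb3 x hx)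
    exact ps_inj hl (hx.symm.trans h1.1) h1.2.symm
  · intro i j hi hj hij
    have h1 := Nb.ps hl hij
    rw [(hn i hi).2, (hn j hj).2] at h1
    omega

/-- the walk from the counterclockwise end of a fan -/
theorem exists_walk_top (hl : S.Linear) {z : Sd I} (h : S.g (unrot z) = unrot z) :
    ∃ n m, Walk S n m ∧ n 0 = z := by
  classical
  have hmax : ∀ x, S.Eqv z x → S.ps x ≤ S.ps z := by
    intro x hx
    by_contra hlt
    rw [not_le] at hlt
    exact unrot_glued_of_lt hl hx hlt h
  have hex : ∀ k, k ≤ S.ps z → ∃ c, S.Eqv z c ∧ S.ps c = k := fun k hk => exists_ps hl hk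
  let n : ℕ → Sd I := fun k => if hk : S.ps z - k ≤ S.ps z then (hex _ hk).choose else z
  have hn : ∀ k, S.Eqv z (n k) ∧ S.ps (n k) = S.ps z - k := by
    intro k
    have hk : S.ps z - k ≤ S.ps z := Nat.sub_le _ _
    have := (hex _ hk).choose_spec
    simp only [n, dif_pos hk]
    exact this
  have hn0 : n 0 = z := by
    have h1 := hn 0
    exact ps_inj hl h1.1.symm (by rw [h1.2, Nat.sub_zero])
  refine ⟨n, S.ps z, ⟨?_, ?_, ?_, ?_⟩, hn0⟩
  · intro i hi
    have h1 := hn i
    have h2 := hn (i + 1)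
    have h3 := ccw_of_ps hl (h2.1.symm.trans h1.1) (by rw [h1.2, h2.2]; omega)
    left
    rw [step_iff_cw]
    exact ⟨h3.2.1, h3.1.symm⟩
  · intro i j hi hj hij
    have h1 := (hn i).2
    have h2 := (hn j).2
    rw [hij, h2] at h1
    omega
  · intro x hx
    rw [hn0] at hx
    have h0 := hmax x hx
    refine ⟨S.ps z - S.ps x, Nat.sub_le _ _, ?_⟩
    have h1 := hn (S.ps z - S.ps x)
    exact ps_inj hl (hx.symm.trans h1.1) (by rw [h1.2]; omega)
  · intro i j hi hj hij
    have h1 := Nb.ps hl hij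
    rw [(hn i).2, (hn j).2] at h1
    omega

/-- ALONG A WALK: `tau` is a set of triangles such that every crossing of its boundary at this visit has one of the four
shapes; `n 0` is in `tau`, its triangle is not a face and not a blade.  If the diagonal between `n j` and `n (j+1)` is
blocked then `n 0, …, n j` are in `tau`. -/
theorem Walk.mem {n : ℕ → Sd I} {m : ℕ} (W : Walk S n m) {tau : Finset I} (h0 : (n 0).1 ∈ tau)
    (hf : ¬ S.Face (n 0).1) (hb : ∀ u, S.Blade u → u.1 ≠ (n 0).1)
    (hcr : ∀ x y, S.Eqv (n 0) x → Nb S x y → x.1 ∈ tau → y.1 ∉ tau →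
      D1 S x y ∨ D2 S pt x y ∨ D1 S y x ∨ D2 S pt y x)
    {j : ℕ} (hj : j < m) (hbk : Bk S pt (n j) (n (j + 1))) : ∀ i ≤ j, (n i).1 ∈ tau := by
  intro i
  induction i with
  | zero => exact fun _ => h0
  | succ i ih =>
    intro hi
    have hi1 := ih (by omega)
    by_contra hout
    have hne : ∀ a b, a ≤ m → b ≤ m → a ≠ b → n a ≠ n b := fun a b ha hb' hab h => hab (W.inj a b ha hb' h)
    rcases hcr (n i) (n (i + 1)) (W.eqv i (by omega)) (W.nb i (by omega)) hi1 hout with h | h | h | h
    · -- `n (i+1)` is a dead end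
      have h1 := h.2 (n (i + 1 + 1)) (W.nb (i + 1) (by omega))
      exact hne _ _ (by omega) (by omega) (by omega) h1
    · obtain ⟨_, y2, h1, h2, h3, h4, h5, _⟩ := h
      have h6 : n (i + 1 + 1) = y2 := by
        rcases h4 (n (i + 1 + 1)) (W.nb (i + 1) (by omega)) with h6 | h6
        · exact absurd h6 (hne _ _ (by omega) (by omega) (by omega))
        · exact h6
      rcases Nat.lt_or_ge (i + 1) j with h7 | h7
      · have h8 : n (i + 1 + 1 + 1) = n (i + 1) :=
          h5 _ (by rw [← h6]; exact W.nb (i + 1 + 1) (by omega))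
        exact hne _ _ (by omega) (by omega) (by omega) h8
      · have h8 : j = i + 1 := by omega
        rw [h8, h6] at hbk
        exact h3 hbk
    · -- `n i` is a dead end in a blade
      rcases Nat.eq_zero_or_pos i with h7 | h7
      · obtain ⟨⟨u, hu1, hu2⟩, _⟩ := h
        rw [h7] at hu2
        exact hb u hu1 hu2
      · obtain ⟨k, rfl⟩ : ∃ k, i = k + 1 := ⟨i - 1, by omega⟩
        have h8 : n k = n (k + 1 + 1) := h.2 _ (W.nb k (by omega)).symm
        exact hne _ _ (by omega) (by omega) (by omega) h8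
    · obtain ⟨h0', y2, h1, h2, h3, h4, h5, h6⟩ := h
      rcases Nat.eq_zero_or_pos i with h7 | h7
      · rw [h7] at h0'; exact hf h0'
      · obtain ⟨k, rfl⟩ : ∃ k, i = k + 1 := ⟨i - 1, by omega⟩
        have h8 : n k = y2 := by
          rcases h4 (n k) (W.nb k (by omega)).symm with h8 | h8
          · exact absurd h8 (hne _ _ (by omega) (by omega) (by omega))
          · exact h8
        rcases Nat.eq_zero_or_pos k with h9 | h9
        · obtain ⟨u, hu1, hu2⟩ := h6
          rw [← h8, h9] at hu2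
          exact hb u hu1 hu2
        · obtain ⟨l, rfl⟩ : ∃ l, k = l + 1 := ⟨k - 1, by omega⟩
          have h10 : n l = n (l + 1 + 1) := h5 _ (by rw [← h8]; exact (W.nb l (by omega)).symm)
          exact hne _ _ (by omega) (by omega) (by omega) h10

/-! ### the fan at the far end of a stub (6.7) -/

/-- the far corner of a real blade `u` across its counterclockwise side -/
theorem D1_unrot {u : Sd I} (h : S.Blade u) : D1 S (S.cw (unrot u)) (unrot u) := by
  refine ⟨⟨u, h, (unrot_fst u).symm⟩, ?_⟩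
  intro y hy
  rw [nb_iff, unrot_unrot] at hy
  rcases hy with hy | hy
  · rw [hy.2, cw, if_neg h.2.1]
  · exact absurd h.2.2.1 hy.1

/-- the far corner of a real blade `u` across its clockwise side -/
theorem D1_rot {u : Sd I} (h : S.Blade u) : D1 S (S.g u) (rot u) := by
  refine ⟨⟨u, h, (rot_fst u).symm⟩, ?_⟩
  intro y hy
  rw [nb_iff, unrot_rot] at hy
  rcases hy with hy | hy
  · exact absurd h.2.2.1 hy.1
  · exact hy.2

theorem virtA_face {w : Sd I} (h : S.VirtA pt w) : S.Face w.1 := by
  have := h.2.1.2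
  rwa [S.invol] at this

theorem virtB_face {w : Sd I} (h : S.VirtB pt w) : S.Face w.1 := by
  have := h.2.1.2
  rwa [S.invol] at this

/-- virtual blade with stub `w`: the fan of the corner `x = rot w` on the clockwise side is `rot w`, then the corner of the
blade triangle, dead end -/
theorem D2_virtA (hG : S.Geo pt) {w : Sd I} (h : S.VirtA pt w) (hw : S.g w ≠ w) :
    D2 S pt (S.g w) (rot w) := by
  have hgr : S.g (rot w) ≠ rot w := by
    have := h.2.1.1
    rw [S.invol] at this
    exact this.symm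
  have hnb2 : ∀ y', Nb S (rot (S.g (rot w))) y' → y' = rot w := by
    intro y hy
    rw [nb_iff, unrot_rot, S.invol] at hy
    rcases hy with hy | hy
    · exact absurd h.1.2.2.1 hy.1
    · exact hy.2
  refine ⟨by rw [rot_fst]; exact virtA_face h, rot (S.g (rot w)), ?_, ?_, ?_, ?_, hnb2, ⟨S.g (rot w), h.1, rfl⟩⟩
  · rw [nb_iff]
    exact Or.inl ⟨hgr, rfl⟩
  · -- the blade triangle is not the neighbour across `w`
    intro he
    have h1 := h.1.2.2.1
    rw [he] at h1
    exact (g_ne_iff.2 hw) h1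
  · rintro (⟨_, h1⟩ | ⟨h1, h2⟩)
    · -- blocked at the start of `rot w`
      rcases h.2.2 with h3 | h3
      · have h4 := h3.stop
        have h5 := h1.2
        rw [S.invol] at h4
        linarith
      · have h4 := hG.b1 h3.1.1
        rw [S.invol] at h4
        exact h4 h1
    · rw [Step] at h1
      exact h1.1 h.1.2.2.1
  · intro y hy
    rw [nb_iff, unrot_rot] at hy
    rcases hy with hy | hy
    · exact Or.inr hy.2
    · exact Or.inl hy.2

/-- virtual blade with stub `unrot w`: the fan of the corner `x = unrot w` on the counterclockwise side -/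
theorem D2_virtB (hG : S.Geo pt) {w : Sd I} (h : S.VirtB pt w) (hw : S.g (unrot w) ≠ unrot w) :
    D2 S pt (S.cw (unrot w)) (unrot w) := by
  have hgr : S.g (rot w) ≠ rot w := by
    have := h.2.1.1
    rw [S.invol] at this
    exact this.symm
  have hbase : S.g (unrot (S.g (rot w))) = unrot (S.g (rot w)) := by
    have := h.1.2.2.1
    rwa [rot_rot] at this
  have hnb2 : ∀ y', Nb S (S.g (rot w)) y' → y' = unrot w := by
    intro y hy
    rw [nb_iff, S.invol] at hy
    rcases hy with hy | hy
    · rw [hy.2, rot_rot]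
    · exact absurd hbase hy.1
  refine ⟨by rw [unrot_fst]; exact virtB_face h, S.g (rot w), ?_, ?_, ?_, ?_, hnb2,
    ⟨rot (S.g (rot w)), h.1, rfl⟩⟩
  · rw [nb_iff, unrot_unrot]
    exact Or.inr ⟨hgr, rfl⟩
  · intro he
    rw [cw, if_neg hw] at he
    have h1 := hbase
    rw [he, unrot_rot] at h1
    exact (g_ne_iff.2 hw) h1
  · rintro (⟨h1, _⟩ | ⟨_, h2⟩)
    · rw [step_iff_cw] at h1
      have h3 := h1.2
      rw [cw, if_neg hw] at h3
      have h4 := hbase
      rw [h3, unrot_rot] at h4
      exact (g_ne_iff.2 hw) h4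
    · rcases h.2.2 with h3 | h3
      · have h4 := h3.start
        have h5 := h2.2
        linarith
      · have h4 := hG.b1 h2
        have h5 := h3.1.b2
        rw [unrot_rot] at h5
        exact h4 h5
  · intro y hy
    rw [nb_iff, unrot_unrot] at hy
    rcases hy with hy | hy
    · left; rw [hy.2, cw, if_neg hw]
    · exact Or.inr hy.2

end Pool.Agent.Helper29.AG7
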